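import Pool.Agent.MP_fb3574_al.H54.Model

/-!
Closed normal subgroups `U` of an FC-group (every element of `G` acts on each finite subset of
`U` as some element of `U`) and the model over such a subgroup.
-/

set_option autoImplicit false

namespace Pool.Agent.MP_fb3574_al.H54

open Subgroup Filter
open scoped commutatorElement

variable {G : Type} [Group G]

/-- A normal subgroup whose elements approximate all elements of `G` on its finite subsets. -/
structure Closed (U : Subgroup G) : Prop where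
  normal : U.Normal
  approx : ∀ S : Set G, S.Finite → S ⊆ U → ∀ g, ∃ u ∈ U, u⁻¹ * g ∈ centralizer S

theorem Closed.mem_center {U : Subgroup G} (hU : Closed U) {a : G} (ha : a ∈ U)
    (hc : a ∈ centralizer (U : Set G)) : a ∈ center G := by
  rw [mem_center_iff]
  intro g
  obtain ⟨u, hu, h⟩ := hU.approx {a} (Set.finite_singleton a) (by simpa using ha) g
  have h1 := mem_centralizer_singleton_iff.mp h
  have h2 := mem_centralizer_iff.mp hc u hu
  calc g * a = u * (u⁻¹ * g * a) := by group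
    _ = u * (a * (u⁻¹ * g)) := by rw [h1]
    _ = (u * a) * (u⁻¹ * g) := by group
    _ = a * g := by rw [h2]; group

theorem normal_centralizer_conjugatesOfSet (S : Set G) :
    (centralizer (Group.conjugatesOfSet S)).Normal := by
  refine ⟨fun n hn g => ?_⟩
  rw [mem_centralizer_iff] at hn ⊢
  intro h hh
  have h1 := hn (g⁻¹ * h * g⁻¹⁻¹) (Group.conj_mem_conjugatesOfSet hh)
  calc h * (g * n * g⁻¹) = g * ((g⁻¹ * h * g⁻¹⁻¹) * n) * g⁻¹ := by group
    _ = g * (n * (g⁻¹ * h * g⁻¹⁻¹)) * g⁻¹ := by rw [h1]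
    _ = g * n * g⁻¹ * h := by group

theorem comm_congr_right (K : Subgroup G) [K.Normal] (x : G) {u g : G} (h : u⁻¹ * g ∈ K) :
    ⁅x, u⁆⁻¹ * ⁅x, g⁆ ∈ K := by
  rw [← QuotientGroup.eq] at h ⊢
  change QuotientGroup.mk' K _ = QuotientGroup.mk' K _
  rw [map_commutatorElement, map_commutatorElement, QuotientGroup.mk'_apply K u, h]
  rfl

theorem comm_congr_left (K : Subgroup G) [K.Normal] (x : G) {u g : G} (h : u⁻¹ * g ∈ K) :
    ⁅u, x⁆⁻¹ * ⁅g, x⁆ ∈ K := by
  rw [← QuotientGroup.eq] at h ⊢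
  change QuotientGroup.mk' K _ = QuotientGroup.mk' K _
  rw [map_commutatorElement, map_commutatorElement, QuotientGroup.mk'_apply K u, h]
  rfl

/-- A finite test set: approximating `g` on it controls the commutator with `x` modulo the
centralizer of `U`. -/
theorem exists_test (hG : FC G) (U : Subgroup G) [U.Normal] (x : G) :
    ∃ S : Set G, S.Finite ∧ S ⊆ U ∧ ∀ u g, u⁻¹ * g ∈ centralizer S →
      ⁅x, u⁆⁻¹ * ⁅x, g⁆ ∈ centralizer (U : Set G) := by
  have hfin := hG.finite_comm_left x
  set W := Set.range fun g : G => ⁅x, g⁆ with hW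
  have hΨ : (Set.image2 (fun a b => a⁻¹ * b) W W).Finite := hfin.image2 _ hfin
  have : ∀ φ : G, ∃ s ∈ U, s * φ = φ * s → φ ∈ centralizer (U : Set G) := by
    intro φ
    by_cases h : φ ∈ centralizer (U : Set G)
    · exact ⟨1, one_mem _, fun _ => h⟩
    · rw [mem_centralizer_iff] at h
      push Not at h
      obtain ⟨s, hs, hs'⟩ := h
      exact ⟨s, hs, fun h => absurd h hs'⟩
  choose s hsU hs using this
  refine ⟨Group.conjugatesOfSet (s '' Set.image2 (fun a b => a⁻¹ * b) W W),
    hG.finite_conjugatesOfSet (hΨ.image s), Group.conjugatesOfSet_subset ?_, ?_⟩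
  · rintro _ ⟨φ, _, rfl⟩
    exact hsU φ
  · intro u g h
    have := normal_centralizer_conjugatesOfSet (s '' Set.image2 (fun a b => a⁻¹ * b) W W)
    have h1 := comm_congr_right _ x h
    apply hs
    exact mem_centralizer_iff.mp h1 _ (Group.subset_conjugatesOfSet
      ⟨_, Set.mem_image2_of_mem ⟨u, rfl⟩ ⟨g, rfl⟩, rfl⟩)

theorem comm_mem_right (U : Subgroup G) [hU : U.Normal] (x : G) {u : G} (hu : u ∈ U) :
    ⁅x, u⁆ ∈ U := by
  rw [commutatorElement_def]
  exact U.mul_mem (hU.conj_mem u hu x) (U.inv_mem hu)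

variable [LinearOrder G]

theorem Closed.exists_seq {U : Subgroup G} (hU : Closed U) {S : Set G} (hS : S.Finite)
    (hSU : S ⊆ U) (J : Finset G) :
    ∃ y : G → G, (∀ i, y i ∈ U) ∧ (∀ j ∈ J, (y j)⁻¹ * j ∈ centralizer S) ∧
      ∀ i ∈ J, ∀ j ∈ J, i < j → (y i)⁻¹ * i ∈ centralizer {y j} := by
  classical
  induction J using Finset.induction_on_min with
  | empty => exact ⟨fun _ => 1, fun _ => one_mem _, by simp, by simp⟩
  | insert a s has ih =>
    obtain ⟨y, hy1, hy2, hy3⟩ := ih
    obtain ⟨u, hu, hu'⟩ := hU.approx (S ∪ y '' s) (hS.union (s.finite_toSet.image y))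
      (Set.union_subset hSU (by rintro _ ⟨i, _, rfl⟩; exact hy1 i)) a
    have hne : ∀ j ∈ s, j ≠ a := fun j hj => (has j hj).ne'
    refine ⟨Function.update y a u, ?_, ?_, ?_⟩
    · intro i
      by_cases hi : i = a
      · subst hi; simpa using hu
      · simpa [hi] using hy1 i
    · intro j hj
      rcases Finset.mem_insert.mp hj with rfl | hj
      · rw [Function.update_self]
        exact centralizer_le Set.subset_union_left hu'
      · rw [Function.update_of_ne (hne j hj)]
        exact hy2 j hj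
    · intro i hi j hj hij
      rcases Finset.mem_insert.mp hj with rfl | hj'
      · rcases Finset.mem_insert.mp hi with rfl | hi'
        · exact absurd hij (lt_irrefl _)
        · exact absurd hij (not_lt.mpr (has i hi').le)
      · rw [Function.update_of_ne (hne j hj')]
        rcases Finset.mem_insert.mp hi with rfl | hi'
        · rw [Function.update_self]
          refine centralizer_le ?_ hu'
          exact Set.singleton_subset_iff.mpr (Or.inr ⟨j, Finset.mem_coe.mpr hj', rfl⟩)
        · rw [Function.update_of_ne (hne i hi')]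
          exact hy3 i hi' j hj' hij

omit [LinearOrder G] in
theorem conj_eq_of_approx {y g s : G} (h : s * (y⁻¹ * g) = (y⁻¹ * g) * s) :
    y * s * y⁻¹ = g * s * g⁻¹ := by
  calc y * s * y⁻¹ = y * (s * (y⁻¹ * g)) * g⁻¹ := by group
    _ = y * ((y⁻¹ * g) * s) * g⁻¹ := by rw [h]
    _ = g * s * g⁻¹ := by group

theorem Closed.exists_premodel (hG : FC G) {U : Subgroup G} (hU : Closed U) :
    ∃ e : G → G → G, (∀ i j, i < j → e i j ∈ U ∧
      (e i j)⁻¹ * ⁅i, j⁆ ∈ centralizer (U : Set G)) ∧ HasModel U e := by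
  classical
  have := hU.normal
  choose T hT1 hT2 hT3 using exists_test hG U
  have hseq : ∀ J : Finset G, ∃ y : G → G, (∀ i, y i ∈ U) ∧
      (∀ j ∈ J, (y j)⁻¹ * j ∈ centralizer (((J : Set G) ∩ U) ∪ ⋃ i ∈ (J : Set G), T i)) ∧
      ∀ i ∈ J, ∀ j ∈ J, i < j → (y i)⁻¹ * i ∈ centralizer {y j} := fun J =>
    hU.exists_seq ((J.finite_toSet.inter_of_left _).union
      (J.finite_toSet.biUnion fun i _ => hT1 i))
      (Set.union_subset Set.inter_subset_right (Set.iUnion₂_subset fun i _ => hT2 i)) J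
  choose y hy1 hy2 hy3 using hseq
  let 𝒰 : Ultrafilter (Finset G) := Ultrafilter.of atTop
  have hle : (𝒰 : Filter (Finset G)) ≤ atTop := Ultrafilter.of_le _
  have hmem : ∀ i : G, ∀ᶠ J in (𝒰 : Filter (Finset G)), i ∈ J := fun i =>
    hle ((eventually_ge_atTop {i}).mono fun J hJ => hJ (Finset.mem_singleton_self i))
  have hex : ∀ i j : G, ∃ e, ∀ᶠ J in (𝒰 : Filter (Finset G)), ⁅i, y J j⁆ = e := by
    intro i j
    have h1 : ∀ᶠ J in (𝒰 : Filter (Finset G)), ∃ e ∈ Set.range fun g : G => ⁅i, g⁆,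
        ⁅i, y J j⁆ = e := Eventually.of_forall fun J => ⟨_, ⟨y J j, rfl⟩, rfl⟩
    obtain ⟨e, _, he⟩ := (Ultrafilter.eventually_exists_mem_iff (hG.finite_comm_left i)).mp h1
    exact ⟨e, he⟩
  choose e he using hex
  refine ⟨e, ?_, ?_⟩
  · intro i j _
    obtain ⟨J, hJ1, hJ2, hJ3⟩ := ((he i j).and ((hmem i).and (hmem j))).exists
    rw [← hJ1]
    refine ⟨comm_mem_right U i (hy1 J j), hT3 i _ _ (centralizer_le ?_ (hy2 J j hJ3))⟩
    exact fun x hx => Or.inr (Set.mem_biUnion (Finset.mem_coe.mpr hJ2) hx)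
  · let γ : (Finset G → G) →* Germ (𝒰 : Filter (Finset G)) G := Germ.coeMulHom _
    have hγ : ∀ a b : Finset G → G, γ a = γ b ↔ a =ᶠ[(𝒰 : Filter (Finset G))] b :=
      fun a b => Germ.coe_eq
    let k : U →* (Finset G → G) := (Pi.constMonoidHom (Finset G) G).comp U.subtype
    refine ⟨Germ (𝒰 : Filter (Finset G)) G, inferInstance, γ.comp k,
      fun i => γ fun J => y J i, ?_, ?_, ?_⟩
    · intro a b hab
      obtain ⟨J, hJ⟩ := ((hγ _ _).mp hab).exists
      exact Subtype.ext hJ
    · intro i f f' hf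
      change γ _ * γ _ * (γ _)⁻¹ = γ _
      rw [← map_inv, ← map_mul, ← map_mul, hγ]
      filter_upwards [hmem i, hmem f] with J hi hfJ
      change y J i * f * (y J i)⁻¹ = f'
      rw [hf]
      exact conj_eq_of_approx (mem_centralizer_iff.mp (hy2 J i hi) f (Or.inl ⟨hfJ, f.2⟩))
    · intro i j hij f hf
      change ⁅γ _, γ _⁆ = γ _
      rw [← map_commutatorElement, hγ]
      filter_upwards [hmem i, hmem j, he i j] with J hi hj hJ
      change ⁅y J i, y J j⁆ = f
      rw [hf, ← hJ, commutatorElement_def, commutatorElement_def,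
        conj_eq_of_approx (mem_centralizer_iff.mp (hy3 J i hi j hj hij) _ rfl)]

theorem Closed.hasModel (hG : FC G) {U : Subgroup G} (hU : Closed U) {f : G → G → G}
    (hf : ∀ i j, i < j → f i j ∈ U ∧ (f i j)⁻¹ * ⁅i, j⁆ ∈ centralizer (U : Set G)) :
    HasModel U f := by
  have := hU.normal
  obtain ⟨e, he, h⟩ := hU.exists_premodel hG
  refine h.twist fun i j hij => ?_
  have h1 : e i j * (f i j)⁻¹ ∈ U := U.mul_mem (he i j hij).1 (U.inv_mem (hf i j hij).1)
  refine ⟨h1, hU.mem_center h1 ?_⟩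
  have h2 : (f i j)⁻¹ * e i j ∈ centralizer (U : Set G) := by
    have := mul_mem (hf i j hij).2 (inv_mem (he i j hij).2)
    convert this using 1
    group
  have h3 := (inferInstance : (centralizer (U : Set G)).Normal).conj_mem _ h2 (f i j)
  convert h3 using 1
  group

end Pool.Agent.MP_fb3574_al.H54
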