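import Pool.Agent.MP_fb3574_al.H54.Refine

/-!
Assembling `G` from models over pairwise commuting normal subgroups.
-/

set_option autoImplicit false

namespace Pool.Agent.MP_fb3574_al.H54

open Subgroup
open scoped commutatorElement

variable {G : Type} [Group G] {J : Type} [DecidableEq J]

/-- The element placed in coordinate `α` together with its value in `G`. -/
def kap (α : J) : G →* (J → G) × G := (MonoidHom.mulSingle (fun _ : J => G) α).prod (MonoidHom.id G)

theorem kap_fst (α : J) (x : G) : (kap α x).1 = Pi.mulSingle α x := rfl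

theorem kap_snd (α : J) (x : G) : (kap α x).2 = x := rfl

/-- The graph of the multiplication map on the restricted product of the `D α`, `α ∈ s`. -/
def EE (D : J → Subgroup G) (s : Set J) : Subgroup ((J → G) × G) :=
  ⨆ α : s, (D α).map (kap (α : J))

theorem kap_mem_EE (D : J → Subgroup G) {s : Set J} {α : J} (hα : α ∈ s) {x : G} (hx : x ∈ D α) :
    kap α x ∈ EE D s :=
  mem_iSup_of_mem (⟨α, hα⟩ : s) ⟨x, hx, rfl⟩

theorem EE_induction (D : J → Subgroup G) (s : Set J) {Q : (J → G) × G → Prop} {z : (J → G) × G}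
    (hz : z ∈ EE D s) (mem : ∀ α ∈ s, ∀ x ∈ D α, Q (kap α x)) (one : Q 1)
    (mul : ∀ x y, Q x → Q y → Q (x * y)) : Q z := by
  refine iSup_induction (C := Q) _ hz ?_ one mul
  rintro ⟨α, hα⟩ _ ⟨x, hx, rfl⟩
  exact mem α hα x hx

theorem EE_mono (D : J → Subgroup G) {s t : Set J} (h : s ⊆ t) : EE D s ≤ EE D t := by
  intro z hz
  exact EE_induction D s (Q := fun z => z ∈ EE D t) hz (fun α hα x hx => kap_mem_EE D (h hα) hx)
    (one_mem _) fun _ _ => mul_mem

theorem EE_fst_mem (D : J → Subgroup G) {s : Set J} {z : (J → G) × G} (hz : z ∈ EE D s) (β : J) :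
    z.1 β ∈ D β := by
  refine EE_induction D s (Q := fun z => z.1 β ∈ D β) hz ?_ (one_mem _) fun _ _ => mul_mem
  intro α _ x hx
  rw [kap_fst]
  by_cases h : β = α
  · subst h; simpa using hx
  · simp [h]

theorem EE_fst_eq_one (D : J → Subgroup G) {s : Set J} {z : (J → G) × G} (hz : z ∈ EE D s)
    {β : J} (hβ : β ∉ s) : z.1 β = 1 := by
  refine EE_induction D s (Q := fun z => z.1 β = 1) hz ?_ rfl ?_
  · intro α hα x _
    have h : β ≠ α := fun h => hβ (h ▸ hα)
    rw [kap_fst]
    simp [h]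
  · intro x y hx hy
    rw [Prod.fst_mul, Pi.mul_apply, hx, hy, one_mul]

theorem EE_exists_finset (D : J → Subgroup G) {s : Set J} {z : (J → G) × G} (hz : z ∈ EE D s) :
    ∃ t : Finset J, z ∈ EE D t := by
  refine EE_induction D s (Q := fun z => ∃ t : Finset J, z ∈ EE D t) hz ?_ ⟨∅, one_mem _⟩ ?_
  · intro α _ x hx
    exact ⟨{α}, kap_mem_EE D (by simp) hx⟩
  · rintro x y ⟨t, ht⟩ ⟨u, hu⟩
    exact ⟨t ∪ u, mul_mem (EE_mono D (by simp) ht) (EE_mono D (by simp) hu)⟩

theorem EE_inj (D : J → Subgroup G)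
    (hc : ∀ α β, α ≠ β → ∀ x ∈ D α, ∀ y ∈ D β, x * y = y * x) {s : Set J} {z : (J → G) × G}
    (hz : z ∈ EE D s) (h1 : z.1 = 1) : z = 1 := by
  obtain ⟨t, ht⟩ := EE_exists_finset D hz
  clear hz
  induction t using Finset.induction_on generalizing z with
  | empty =>
    refine EE_induction D _ (Q := fun z => z = 1) ht (by simp) rfl ?_
    intro x y hx hy
    rw [hx, hy, one_mul]
  | insert a t ha ih =>
    have hcomm : ∀ x ∈ D a, ∀ w ∈ EE D t, kap a x * w = w * kap a x := by
      intro x hx w hw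
      refine EE_induction D _ (Q := fun w => kap a x * w = w * kap a x) hw ?_ (by simp) ?_
      · intro α hα y hy
        have hne : a ≠ α := fun h => ha (h ▸ Finset.mem_coe.mp hα)
        exact Prod.ext (Pi.mulSingle_commute (f := fun _ : J => G) hne x y) (hc a α hne x hx y hy)
      · intro u v hu hv
        rw [← mul_assoc, hu, mul_assoc, hv, mul_assoc]
    have hdec : ∃ x ∈ D a, ∃ w ∈ EE D t, z = kap a x * w := by
      refine EE_induction D _ (Q := fun z => ∃ x ∈ D a, ∃ w ∈ EE D t, z = kap a x * w) ht ?_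
        ⟨1, one_mem _, 1, one_mem _, by simp⟩ ?_
      · intro α hα y hy
        rcases Finset.mem_insert.mp (Finset.mem_coe.mp hα) with rfl | hα'
        · exact ⟨y, hy, 1, one_mem _, by simp⟩
        · exact ⟨1, one_mem _, _, kap_mem_EE D (Finset.mem_coe.mpr hα') hy, by simp⟩
      · rintro _ _ ⟨x, hx, w, hw, rfl⟩ ⟨x', hx', w', hw', rfl⟩
        refine ⟨x * x', mul_mem hx hx', w * w', mul_mem hw hw', ?_⟩
        rw [map_mul, mul_assoc, ← mul_assoc w, ← hcomm x' hx' w hw]
        group
    obtain ⟨x, hx, w, hw, rfl⟩ := hdec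
    have h2 : x = 1 := by
      have := congrFun h1 a
      rw [Prod.fst_mul, Pi.mul_apply, EE_fst_eq_one D hw (by simpa using ha), kap_fst] at this
      simpa using this
    rw [h2, map_one, one_mul] at h1 ⊢
    exact ih h1 hw

theorem EE_conj (D : J → Subgroup G) [hn : ∀ α, (D α).Normal] {s : Set J} {z : (J → G) × G}
    (hz : z ∈ EE D s) (i : G) :
    ((fun _ => i, i) * z * (fun _ => i, i)⁻¹ : (J → G) × G) ∈ EE D s := by
  refine EE_induction D s
    (Q := fun z => ((fun _ => i, i) * z * (fun _ => i, i)⁻¹ : (J → G) × G) ∈ EE D s) hz ?_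
    (by rw [mul_one, mul_inv_cancel]; exact one_mem _) ?_
  · intro α hα x hx
    have : ((fun _ => i, i) * kap α x * (fun _ => i, i)⁻¹ : (J → G) × G) = kap α (i * x * i⁻¹) := by
      refine Prod.ext (funext fun β => ?_) rfl
      change i * (Pi.mulSingle α x : J → G) β * i⁻¹ = (Pi.mulSingle α (i * x * i⁻¹) : J → G) β
      by_cases h : β = α
      · subst h; simp
      · simp [h]
    rw [this]
    exact kap_mem_EE D hα ((hn α).conj_mem x hx i)
  · intro x y hx hy
    convert mul_mem hx hy using 1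
    group

variable {C : ∀ (G : Type) [Group G], Prop}

theorem DV.assemble [LinearOrder G] (h : DV C) (D : J → Subgroup G) [hn : ∀ α, (D α).Normal]
    (hc : ∀ α β, α ≠ β → ∀ x ∈ D α, ∀ y ∈ D β, x * y = y * x)
    (d : J → G → G → G) (P : J → Type) [∀ α, Group (P α)] (ι : ∀ α, D α →* P α)
    (p : ∀ α, G → P α) (hM : ∀ α, IsModel (D α) (d α) (ι α) (p α)) (hP : ∀ α, C (P α))
    (hfin : ∀ i, {α | p α i ≠ 1}.Finite)
    (htel : ∀ i j, i < j → ((fun α => d α i j, ⁅i, j⁆) : (J → G) × G) ∈ EE D Set.univ) :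
    C G := by
  classical
  let V := Multiplicative (G →₀ ℤ)
  let Ω := ((∀ α, P α) × V) × G
  let ε : EE D Set.univ →* Ω :=
    { toFun := fun z => ((fun α => ι α ⟨z.1.1 α, EE_fst_mem D z.2 α⟩, 1), z.1.2)
      map_one' := by
        refine Prod.ext (Prod.ext (funext fun α => ?_) rfl) rfl
        exact map_one (ι α)
      map_mul' := by
        intro z w
        refine Prod.ext (Prod.ext (funext fun α => ?_) (mul_one _).symm) rfl
        exact map_mul (ι α) ⟨z.1.1 α, EE_fst_mem D z.2 α⟩ ⟨w.1.1 α, EE_fst_mem D w.2 α⟩ }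
  let η : G → Ω := fun i => ((fun α => p α i, Multiplicative.ofAdd (Finsupp.single i 1)), i)
  let Γ : Subgroup Ω := closure (Set.range ε ∪ Set.range η)
  let ε' : EE D Set.univ →* Γ := ε.codRestrict Γ fun z => subset_closure (Or.inl ⟨z, rfl⟩)
  let η' : G → Γ := fun i => ⟨η i, subset_closure (Or.inr ⟨i, rfl⟩)⟩
  have hS : closure (Set.range ε' ∪ Set.range η') = ⊤ := by
    rw [← closure_closure_coe_preimage (k := Set.range ε ∪ Set.range η)]
    congr 1
    ext x
    constructor
    · rintro (⟨f, rfl⟩ | ⟨i, rfl⟩)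
      · exact Or.inl ⟨f, rfl⟩
      · exact Or.inr ⟨i, rfl⟩
    · rintro (⟨f, hf⟩ | ⟨i, hi⟩)
      · exact Or.inl ⟨f, Subtype.ext hf⟩
      · exact Or.inr ⟨i, Subtype.ext hi⟩
  have hconj : ∀ i z, ∃ w, η' i * ε' z * (η' i)⁻¹ = ε' w := by
    intro i z
    refine ⟨⟨_, EE_conj D z.2 i⟩, Subtype.ext ?_⟩
    refine Prod.ext (Prod.ext (funext fun α => ?_) ?_) rfl
    · exact (hM α).conj i _ _ rfl
    · change Multiplicative.ofAdd (Finsupp.single i (1 : ℤ)) * 1 *
        (Multiplicative.ofAdd (Finsupp.single i (1 : ℤ)))⁻¹ = 1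
      group
  have hconj' : ∀ i z, ∃ w, (η' i)⁻¹ * ε' z * η' i = ε' w := by
    intro i z
    refine ⟨⟨_, EE_conj D z.2 i⁻¹⟩, Subtype.ext ?_⟩
    refine Prod.ext (Prod.ext (funext fun α => ?_) ?_) ?_
    · refine (hM α).conj_inv i _ _ ?_
      change i⁻¹ * z.1.1 α * i⁻¹⁻¹ = i⁻¹ * z.1.1 α * i
      rw [inv_inv]
    · change (Multiplicative.ofAdd (Finsupp.single i (1 : ℤ)))⁻¹ * 1 *
        Multiplicative.ofAdd (Finsupp.single i (1 : ℤ)) = 1
      group
    · change i⁻¹ * z.1.2 * i = i⁻¹ * z.1.2 * i⁻¹⁻¹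
      rw [inv_inv]
  have hnorm : ε'.range.Normal := by
    refine normal_range_of_gen hS _ ?_ ?_
    · rintro _ (⟨f, rfl⟩ | ⟨i, rfl⟩) a
      · exact ⟨f * a * f⁻¹, by simp⟩
      · exact hconj i a
    · rintro _ (⟨f, rfl⟩ | ⟨i, rfl⟩) a
      · exact ⟨f⁻¹ * a * f, by simp⟩
      · exact hconj' i a
  have hηη : ∀ i j, i < j → ⁅η' i, η' j⁆ ∈ ε'.range := by
    intro i j hij
    refine ⟨⟨_, htel i j hij⟩, Subtype.ext ?_⟩
    refine Prod.ext (Prod.ext (funext fun α => ?_) ?_) rfl
    · exact ((hM α).comm i j hij _ rfl).symm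
    · change 1 = ⁅Multiplicative.ofAdd (Finsupp.single i (1 : ℤ)),
        Multiplicative.ofAdd (Finsupp.single j (1 : ℤ))⁆
      rw [eq_comm, commutatorElement_eq_one_iff_mul_comm, mul_comm]
  have hcomm : commutator Γ ≤ ε'.range := by
    refine commutator_le_of_gen hS _ ?_
    rintro s hs _ (⟨f, rfl⟩ | ⟨j, rfl⟩)
    · exact comm_mem_right _ s ⟨f, rfl⟩
    · rcases hs with ⟨f, rfl⟩ | ⟨i, rfl⟩
      · rw [← commutatorElement_inv]
        exact inv_mem (comm_mem_right _ _ ⟨f, rfl⟩)
      · rcases lt_trichotomy i j with hij | hij | hij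
        · exact hηη i j hij
        · subst hij; simp
        · rw [← commutatorElement_inv]
          exact inv_mem (hηη j i hij)
  have hab : IsMulCommutative (Γ ⧸ ε'.range) :=
    Normal.quotient_commutative_iff_commutator_le.mpr hcomm
  let _ : CommGroup (Γ ⧸ ε'.range) :=
    { (inferInstance : Group (Γ ⧸ ε'.range)) with mul_comm := fun a b => mul_comm' a b }
  let q : Γ →* Γ ⧸ ε'.range := QuotientGroup.mk' _
  let s : V →* Γ ⧸ ε'.range :=
    { toFun := fun v => chr (fun i => q (η' i)) v.toAdd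
      map_one' := by simp [chr]
      map_mul' := by
        intro v w
        change chr _ (v.toAdd + w.toAdd) = _
        unfold chr
        exact Finsupp.prod_add_index' (fun _ => zpow_zero _) (fun _ _ _ => zpow_add _ _ _) }
  let ρ : Γ →* V := (MonoidHom.snd _ _).comp ((MonoidHom.fst _ _).comp Γ.subtype)
  have hq : q = s.comp ρ := by
    refine MonoidHom.eq_of_eqOn_dense hS ?_
    rintro _ (⟨f, rfl⟩ | ⟨i, rfl⟩)
    · change q (ε' f) = s 1
      rw [map_one]
      exact (QuotientGroup.eq_one_iff _).mpr ⟨f, rfl⟩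
    · change q (η' i) = chr (fun i => q (η' i)) (Finsupp.single i 1)
      have := chr_add_single (fun i => q (η' i)) 0 i
      rw [zero_add] at this
      rw [this]
      simp [chr]
  have hinj : Function.Injective ((MonoidHom.fst _ _).comp Γ.subtype) := by
    rw [injective_iff_map_eq_one]
    intro γ hγ
    have h1 : (γ : Ω).1 = 1 := hγ
    have h2 : q γ = 1 := by
      rw [hq]
      change s (γ : Ω).1.2 = 1
      rw [h1]
      exact map_one s
    obtain ⟨z, rfl⟩ := (QuotientGroup.eq_one_iff _).mp h2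
    have h3 : z.1.1 = 1 := by
      funext α
      have h4 : ι α ⟨z.1.1 α, EE_fst_mem D z.2 α⟩ = 1 := congrFun (congrArg Prod.fst h1) α
      exact congrArg Subtype.val ((injective_iff_map_eq_one _).mp (hM α).inj _ h4)
    have h5 : z = 1 := Subtype.ext (EE_inj D hc z.2 h3)
    rw [h5, map_one]
  -- the restricted product
  let R : Subgroup (∀ α, P α) :=
    { carrier := {x | {α | x α ≠ 1}.Finite}
      one_mem' := by simp
      mul_mem' := by
        intro a b ha hb
        refine (ha.union hb).subset fun α hα => ?_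
        by_contra hcon
        simp only [Set.mem_union, Set.mem_ofPred_eq, not_or, not_not] at hcon
        exact hα (by rw [Pi.mul_apply, hcon.1, hcon.2, one_mul])
      inv_mem' := by
        intro a ha
        refine ha.subset fun α hα => ?_
        simpa using hα }
  have hR : C R := h.of_embed P hP R.subtype R.subtype_injective fun g => g.2
  have hV : C V := h.fin V (by
    have : commutator V = ⊥ := commutator_eq_bot V
    rw [this]; infer_instance)
  have hΓR : ∀ γ : Γ, (γ : Ω).1 ∈ R.prod ⊤ := by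
    intro γ
    have : Γ ≤ (R.prod ⊤).comap (MonoidHom.fst _ G) := by
      rw [closure_le]
      rintro _ (⟨z, rfl⟩ | ⟨i, rfl⟩)
      · refine ⟨?_, mem_top _⟩
        obtain ⟨t, ht⟩ := EE_exists_finset D z.2
        refine t.finite_toSet.subset fun α hα => ?_
        by_contra hcon
        apply hα
        change ι α ⟨z.1.1 α, _⟩ = 1
        rw [← map_one (ι α)]
        congr 1
        exact Subtype.ext (EE_fst_eq_one D ht hcon)
      · exact ⟨hfin i, mem_top _⟩
    exact this γ.2
  have hRV : C (R.prod (⊤ : Subgroup V)) :=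
    h.iso _ _ (prodEquiv R ⊤).symm (h.prod2 hR (h.sub V ⊤ hV))
  have hΓ : C Γ := by
    refine h.of_injective (((MonoidHom.fst _ _).comp Γ.subtype).codRestrict _ hΓR) ?_ hRV
    intro a b hab
    exact hinj (congrArg Subtype.val hab)
  refine h.of_surjective ((MonoidHom.snd _ _).comp Γ.subtype) ?_ hΓ
  intro i
  exact ⟨η' i, rfl⟩

end Pool.Agent.MP_fb3574_al.H54
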