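import Mathlib

/-!
Basic facts on direct varieties and on groups with finite conjugacy classes.
-/

set_option autoImplicit false

namespace Pool.Agent.MP_fb3574_al.H54

open Subgroup
open scoped commutatorElement

/-- The closure properties used: a direct variety containing all groups with finite
derived subgroup. -/
structure DV (C : ∀ (G : Type) [Group G], Prop) : Prop where
  iso : ∀ (G H : Type) [Group G] [Group H], (G ≃* H) → C G → C H
  sub : ∀ (G : Type) [Group G] (H : Subgroup G), C G → C ↥H
  quot : ∀ (G : Type) [Group G] (N : Subgroup G) [N.Normal], C G → C (G ⧸ N)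
  prod : ∀ (ι : Type) [DecidableEq ι] (G : ι → Type) [∀ i, Group (G i)],
        (∀ i, C (G i)) → C ↥(⨆ i, (MonoidHom.mulSingle G i).range)
  fin : ∀ (G : Type) [Group G], Finite ↥(commutator G) → C G

variable {C : ∀ (G : Type) [Group G], Prop}

theorem DV.of_injective (h : DV C) {G H : Type} [Group G] [Group H] (f : G →* H)
    (hf : Function.Injective f) (hH : C H) : C G :=
  h.iso _ _ (MonoidHom.ofInjective hf).symm (h.sub H f.range hH)

theorem DV.of_surjective (h : DV C) {G H : Type} [Group G] [Group H] (f : G →* H)
    (hf : Function.Surjective f) (hG : C G) : C H :=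
  h.iso _ _ (QuotientGroup.quotientKerEquivOfSurjective f hf) (h.quot G f.ker hG)

theorem mem_iSup_of_finite {ι : Type} [DecidableEq ι] (P : ι → Type) [∀ i, Group (P i)]
    (s : Finset ι) : ∀ x : ∀ i, P i, (∀ i, i ∉ s → x i = 1) →
      x ∈ (⨆ i, (MonoidHom.mulSingle P i).range) := by
  induction s using Finset.induction_on with
  | empty =>
    intro x hx
    have : x = 1 := funext fun i => hx i (by simp)
    rw [this]; exact one_mem _
  | insert a s ha ih =>
    intro x hx
    have h1 : x = Pi.mulSingle a (x a) * Function.update x a 1 := by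
      funext i
      by_cases hi : i = a
      · subst hi; simp
      · simp [hi]
    rw [h1]
    refine mul_mem (mem_iSup_of_mem a ⟨x a, rfl⟩) (ih _ ?_)
    intro i hi
    by_cases hia : i = a
    · subst hia; simp
    · rw [Function.update_of_ne hia]; exact hx i (by simp [hia, hi])

theorem DV.of_embed (h : DV C) {ι : Type} (P : ι → Type) [∀ i, Group (P i)]
    (hP : ∀ i, C (P i)) {G : Type} [Group G] (f : G →* ∀ i, P i)
    (hf : Function.Injective f) (hs : ∀ g, {i | f g i ≠ 1}.Finite) : C G := by
  classical
  have hmem : ∀ g, f g ∈ (⨆ i, (MonoidHom.mulSingle P i).range) := by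
    intro g
    refine mem_iSup_of_finite P (hs g).toFinset _ ?_
    intro i hi
    simpa using hi
  refine h.of_injective (f.codRestrict _ hmem) ?_ (h.prod ι P hP)
  intro a b hab
  exact hf (congrArg Subtype.val hab)

/-- The two-element family. -/
def fam (A B : Type) : Bool → Type
  | true => A
  | false => B

instance famGroup (A B : Type) [hA : Group A] [hB : Group B] : ∀ b, Group (fam A B b)
  | true => hA
  | false => hB

/-- The pair as a dependent function. -/
def famMk {A B : Type} (x : A × B) : ∀ b, fam A B b
  | true => x.1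
  | false => x.2

theorem DV.prod2 (h : DV C) {A B : Type} [Group A] [Group B] (hA : C A) (hB : C B) :
    C (A × B) := by
  have hP : ∀ b, C (fam A B b) := fun b => by cases b; exact hB; exact hA
  let f : A × B →* ∀ b, fam A B b :=
    { toFun := famMk
      map_one' := by funext b; cases b <;> rfl
      map_mul' := by intro x y; funext b; cases b <;> rfl }
  refine h.of_embed (fam A B) hP f ?_ (fun g => Set.toFinite _)
  intro x y hxy
  exact Prod.ext (congrFun hxy true) (congrFun hxy false)

/-- Groups with finite conjugacy classes. -/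
def FC (G : Type) [Group G] : Prop := ∀ g : G, {h : G | IsConj g h}.Finite

section FCfacts

variable {G : Type} [Group G]

theorem FC.finiteIndex_centralizer_singleton (hG : FC G) (g : G) :
    (centralizer {g}).FiniteIndex := by
  have : Finite {h : G | IsConj g h} := (hG g).to_subtype
  let f : G ⧸ centralizer {g} → {h : G | IsConj g h} := fun q =>
    ⟨q.out * g * q.out⁻¹, isConj_iff.mpr ⟨_, rfl⟩⟩
  have hf : Function.Injective f := by
    intro a b hab
    have h1 : a.out * g * a.out⁻¹ = b.out * g * b.out⁻¹ := congrArg Subtype.val hab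
    rw [← QuotientGroup.out_eq' a, ← QuotientGroup.out_eq' b, QuotientGroup.eq,
      mem_centralizer_singleton_iff]
    calc a.out⁻¹ * b.out * g = a.out⁻¹ * (b.out * g * b.out⁻¹) * b.out := by group
      _ = a.out⁻¹ * (a.out * g * a.out⁻¹) * b.out := by rw [h1]
      _ = g * (a.out⁻¹ * b.out) := by group
  have : Finite (G ⧸ centralizer {g}) := Finite.of_injective f hf
  exact finiteIndex_of_finite_quotient

theorem FC.finiteIndex_centralizer (hG : FC G) {S : Set G} (hS : S.Finite) :
    (centralizer S).FiniteIndex := by
  have : Finite S := hS.to_subtype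
  have h1 : (⨅ s : S, centralizer {(s : G)}).FiniteIndex :=
    finiteIndex_iInf fun s => hG.finiteIndex_centralizer_singleton s
  refine finiteIndex_of_le (H := ⨅ s : S, centralizer {(s : G)}) ?_
  intro x hx
  rw [mem_centralizer_iff]
  intro s hs
  have := (mem_iInf.mp hx) ⟨s, hs⟩
  exact (mem_centralizer_singleton_iff.mp this).symm

theorem finite_commutatorSet_of_center [(center G).FiniteIndex] : Finite (commutatorSet G) := by
  have : Finite (G ⧸ center G) := inferInstance
  have hsub : commutatorSet G ⊆
      Set.range fun q : (G ⧸ center G) × (G ⧸ center G) => ⁅q.1.out, q.2.out⁆ := by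
    rintro _ ⟨a, b, rfl⟩
    refine ⟨(a, b), ?_⟩
    obtain ⟨z, hz⟩ := QuotientGroup.mk_out_eq_mul (center G) a
    obtain ⟨w, hw⟩ := QuotientGroup.mk_out_eq_mul (center G) b
    simp only [hz, hw, commutatorElement_def]
    have hz' := mem_center_iff.mp z.2
    have hw' := mem_center_iff.mp w.2
    generalize (z : G) = z at hz'
    generalize (w : G) = w at hw'
    calc a * z * (b * w) * (a * z)⁻¹ * (b * w)⁻¹
        = a * (z * (b * w)) * (z⁻¹ * a⁻¹) * (w⁻¹ * b⁻¹) := by group
      _ = a * ((b * w) * z) * (z⁻¹ * a⁻¹) * (w⁻¹ * b⁻¹) := by rw [hz']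
      _ = a * b * (w * a⁻¹) * (w⁻¹ * b⁻¹) := by group
      _ = a * b * (a⁻¹ * w) * (w⁻¹ * b⁻¹) := by rw [hw']
      _ = a * b * a⁻¹ * b⁻¹ := by group
  exact ((Set.finite_range _).subset hsub).to_subtype

theorem FC.of_surjective (hG : FC G) {H : Type} [Group H] (f : G →* H)
    (hf : Function.Surjective f) : FC H := by
  intro h
  obtain ⟨g, rfl⟩ := hf h
  refine ((hG g).image f).subset ?_
  intro y hy
  obtain ⟨c, rfl⟩ := isConj_iff.mp hy
  obtain ⟨d, rfl⟩ := hf c
  exact ⟨d * g * d⁻¹, isConj_iff.mpr ⟨d, rfl⟩, by simp⟩

theorem FC.subgroup (hG : FC G) (H : Subgroup G) : FC H := by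
  intro h
  refine Set.Finite.of_finite_image (f := fun x : H => (x : G)) ?_ Subtype.val_injective.injOn
  refine (hG h).subset ?_
  rintro _ ⟨y, hy, rfl⟩
  obtain ⟨c, rfl⟩ := isConj_iff.mp hy
  exact isConj_iff.mpr ⟨c, by simp⟩

/-- In an FC-group an abelian subgroup of finite index forces the centre to have finite index. -/
theorem FC.finiteIndex_center (hG : FC G) (A : Subgroup G) [A.FiniteIndex]
    (hA : ∀ a ∈ A, ∀ b ∈ A, a * b = b * a) : (center G).FiniteIndex := by
  have hfin : (Set.range fun q : G ⧸ A => q.out).Finite := Set.finite_range _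
  have := hG.finiteIndex_centralizer hfin
  refine finiteIndex_of_le (H := A ⊓ centralizer (Set.range fun q : G ⧸ A => q.out)) ?_
  rintro x ⟨hxA, hxC⟩
  rw [mem_center_iff]
  intro g
  obtain ⟨a, ha⟩ := QuotientGroup.mk_out_eq_mul A g
  have h1 : (g * a) * x = x * (g * a) := by
    rw [← ha]; exact mem_centralizer_iff.mp hxC _ ⟨_, rfl⟩
  have h2 := hA x hxA a a.2
  calc g * x = g * (x * a) * (a : G)⁻¹ := by group
    _ = (g * a) * x * (a : G)⁻¹ := by rw [h2]; group
    _ = x * g := by rw [h1]; group

theorem FC.finite_commutator_closure (hG : FC G) {T : Set G} (hT : T.Finite) :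
    (↑(⁅closure T, closure T⁆ : Subgroup G) : Set G).Finite := by
  have h1 : (center (closure T)).FiniteIndex := by
    have := hG.finiteIndex_centralizer hT
    refine finiteIndex_of_le (H := (centralizer T).subgroupOf (closure T)) ?_
    intro x hx
    rw [mem_subgroupOf, ← centralizer_closure] at hx
    rw [mem_center_iff]
    intro y
    exact Subtype.ext (mem_centralizer_iff.mp hx y y.2)
  have h2 := finite_commutatorSet_of_center (G := closure T)
  have h3 : Finite (commutator (closure T)) := inferInstance
  rw [← map_subtype_commutator]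
  exact (Set.toFinite (commutator (closure T) : Set (closure T))).image _

theorem exists_finite_of_mem_commutator {w : G} (hw : w ∈ commutator G) :
    ∃ T : Set G, T.Finite ∧ w ∈ (⁅closure T, closure T⁆ : Subgroup G) := by
  rw [commutator_eq_closure] at hw
  induction hw using closure_induction with
  | mem x hx =>
    obtain ⟨a, b, rfl⟩ := hx
    exact ⟨{a, b}, Set.toFinite _, commutator_mem_commutator (subset_closure (by simp))
      (subset_closure (by simp))⟩
  | one => exact ⟨∅, Set.finite_empty, one_mem _⟩
  | mul x y _ _ hx hy =>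
    obtain ⟨T, hT, hx⟩ := hx
    obtain ⟨T', hT', hy⟩ := hy
    refine ⟨T ∪ T', hT.union hT', mul_mem ?_ ?_⟩
    · exact commutator_mono (closure_mono Set.subset_union_left)
        (closure_mono Set.subset_union_left) hx
    · exact commutator_mono (closure_mono Set.subset_union_right)
        (closure_mono Set.subset_union_right) hy
  | inv x _ hx =>
    obtain ⟨T, hT, hx⟩ := hx
    exact ⟨T, hT, inv_mem hx⟩

theorem FC.finite_conjugatesOfSet (hG : FC G) {W : Set G} (hW : W.Finite) :
    (Group.conjugatesOfSet W).Finite :=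
  hW.biUnion fun a _ => hG a

/-- A finite subset of the derived subgroup of an FC-group has finite normal closure. -/
theorem FC.finite_normalClosure (hG : FC G) {W : Set G} (hW : W.Finite)
    (hWG : W ⊆ commutator G) : (↑(normalClosure W) : Set G).Finite := by
  have h1 := hG.finite_conjugatesOfSet hW
  have h2 : Group.conjugatesOfSet W ⊆ commutator G := Group.conjugatesOfSet_subset hWG
  choose! T hT hT' using fun w (hw : w ∈ commutator G) => exists_finite_of_mem_commutator hw
  have h3 : (⋃ w ∈ Group.conjugatesOfSet W, T w).Finite := h1.biUnion fun w hw => hT w (h2 hw)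
  refine (hG.finite_commutator_closure h3).subset ?_
  change normalClosure W ≤ _
  rw [normalClosure, closure_le]
  intro w hw
  have hsub : T w ⊆ ⋃ w ∈ Group.conjugatesOfSet W, T w := Set.subset_biUnion_of_mem hw
  exact commutator_mono (closure_mono hsub) (closure_mono hsub) (hT' w (h2 hw))

theorem FC.finite_comm_left (hG : FC G) (x : G) : (Set.range fun g : G => ⁅x, g⁆).Finite := by
  refine ((hG x⁻¹).image fun h => x * h).subset ?_
  rintro _ ⟨g, rfl⟩
  exact ⟨g * x⁻¹ * g⁻¹, isConj_iff.mpr ⟨g, rfl⟩, by simp [commutatorElement_def, mul_assoc]⟩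

theorem FC.finite_comm_right (hG : FC G) (x : G) : (Set.range fun g : G => ⁅g, x⁆).Finite := by
  refine ((hG x).image fun h => h * x⁻¹).subset ?_
  rintro _ ⟨g, rfl⟩
  exact ⟨g * x * g⁻¹, isConj_iff.mpr ⟨g, rfl⟩, by simp [commutatorElement_def, mul_assoc]⟩

theorem comm_mem_commutator (a b : G) : ⁅a, b⁆ ∈ commutator G :=
  commutator_mem_commutator (mem_top a) (mem_top b)

end FCfacts

end Pool.Agent.MP_fb3574_al.H54
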