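import Pool.Agent.MP_fb3574_al.H54.Closure

/-!
The inductive step along a well-ordered chain of closed normal subgroups.
-/

set_option autoImplicit false

namespace Pool.Agent.MP_fb3574_al.H54

open Subgroup Cardinal
open Set hiding center centralizer mem_center_iff mem_centralizer_iff
open scoped commutatorElement

section Jump

variable {J : Type} [LinearOrder J]

theorem finite_jump (q : Set J → Prop) (hm : ∀ S T, S ⊆ T → q S → q T) :
    {β | q (Iic β) ∧ ¬ q (Iio β)}.Finite := by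
  refine Set.Subsingleton.finite ?_
  intro a ha b hb
  by_contra hne
  rcases lt_or_gt_of_ne hne with h | h
  · exact hb.2 (hm _ _ (Iic_subset_Iio.mpr h) ha.1)
  · exact ha.2 (hm _ _ (Iic_subset_Iio.mpr h) hb.1)

theorem exists_jump [WellFoundedLT J] (q : Set J → Prop) (hm : ∀ S T, S ⊆ T → q S → q T)
    (hf : ∀ S, q S → ∃ S0 ⊆ S, S0.Finite ∧ q S0) {S S' : Set J} (hS : IsLowerSet S)
    (hS' : IsLowerSet S') (h1 : q S) (h2 : ¬ q S') :
    ∃ β ∈ S, β ∉ S' ∧ q (Iic β) ∧ ¬ q (Iio β) := by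
  have key : ∀ T, q T → ∃ γ ∈ T, q (Iic γ) := by
    intro T hT
    obtain ⟨T0, hT0, hfin, hq⟩ := hf T hT
    rcases T0.eq_empty_or_nonempty with rfl | hne
    · exact absurd (hm _ _ (empty_subset _) hq) h2
    · obtain ⟨γ, hγ, hmax⟩ := Set.exists_max_image T0 id hfin hne
      exact ⟨γ, hT0 hγ, hm _ _ (fun x hx => hmax x hx) hq⟩
  have hne : {β | β ∈ S ∧ q (Iic β)}.Nonempty := key S h1
  obtain ⟨β, hβ, hmin⟩ := WellFounded.has_min (wellFounded_lt (α := J)) _ hne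
  refine ⟨β, hβ.1, fun h => h2 (hm _ _ (fun x hx => hS' hx h) hβ.2), hβ.2, fun h => ?_⟩
  obtain ⟨γ, hγ, hq⟩ := key _ h
  exact hmin γ ⟨hS (le_of_lt hγ) hβ.1, hq⟩ hγ

end Jump

variable {G : Type} [Group G]

open Classical in
/-- A choice of a component of `w` that depends only on the two sets `X` and `Y`. -/
noncomputable def sel (w : G) (X Y : Set G) : G :=
  if w ∈ X then w else if h : ∃ f ∈ X, f⁻¹ * w ∈ Y then h.choose else 1

theorem exists_proj (hG : FC G) : ∃ (π : Subgroup G → G → G) (Ψ : G → Subgroup G),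
    (∀ w, (Ψ w : Set G).Finite ∧ Ψ w ≤ commutator G) ∧
    (∀ U, Closed U → ∀ x g : G, π U ⁅x, g⁆ ∈ U ∧ π U ⁅x, g⁆ ∈ Ψ ⁅x, g⁆ ∧
      (π U ⁅x, g⁆)⁻¹ * ⁅x, g⁆ ∈ centralizer (U : Set G)) ∧
    (∀ (U : Subgroup G) (x g : G), ⁅x, g⁆ ∈ U → π U ⁅x, g⁆ = ⁅x, g⁆) ∧
    ∀ (U U' : Subgroup G) w, (∀ ψ ∈ Ψ w, (ψ ∈ U ↔ ψ ∈ U') ∧
      (ψ ∈ centralizer (U : Set G) ↔ ψ ∈ centralizer (U' : Set G))) → π U w = π U' w := by
  have hex : ∀ w : G, ∃ Ψ : Subgroup G, (Ψ : Set G).Finite ∧ Ψ ≤ commutator G ∧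
      ((∃ x g : G, w = ⁅x, g⁆) → w ∈ Ψ ∧ ∀ U, Closed U → ∃ f ∈ Ψ, f ∈ U ∧
        f⁻¹ * w ∈ centralizer (U : Set G)) := by
    intro w
    by_cases hw : ∃ x g : G, w = ⁅x, g⁆
    · obtain ⟨x, g, rfl⟩ := hw
      have hsub : (Set.range fun g : G => ⁅x, g⁆) ⊆ commutator G := by
        rintro _ ⟨g, rfl⟩; exact comm_mem_commutator x g
      refine ⟨normalClosure (Set.range fun g : G => ⁅x, g⁆),
        hG.finite_normalClosure (hG.finite_comm_left x) hsub, normalClosure_le_normal hsub,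
        fun _ => ⟨subset_normalClosure ⟨g, rfl⟩, fun U hU => ?_⟩⟩
      have := hU.normal
      obtain ⟨S, hS1, hS2, hS3⟩ := exists_test hG U x
      obtain ⟨u, hu, hu'⟩ := hU.approx S hS1 hS2 g
      exact ⟨⁅x, u⁆, subset_normalClosure ⟨u, rfl⟩, comm_mem_right U x hu, hS3 u g hu'⟩
    · exact ⟨⊥, by simp, bot_le, fun h => absurd h hw⟩
  choose Ψ hΨ1 hΨ2 hΨ3 using hex
  refine ⟨fun U w => sel w ((Ψ w : Set G) ∩ U) ((Ψ w : Set G) ∩ centralizer (U : Set G)), Ψ,
    fun w => ⟨hΨ1 w, hΨ2 w⟩, ?_, ?_, ?_⟩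
  · intro U hU x g
    obtain ⟨h1, h2⟩ := hΨ3 ⁅x, g⁆ ⟨x, g, rfl⟩
    obtain ⟨f, hf1, hf2, hf3⟩ := h2 U hU
    have h3 : ∃ f ∈ ((Ψ ⁅x, g⁆ : Set G) ∩ U),
        f⁻¹ * ⁅x, g⁆ ∈ ((Ψ ⁅x, g⁆ : Set G) ∩ centralizer (U : Set G)) :=
      ⟨f, ⟨hf1, hf2⟩, mul_mem (inv_mem hf1) h1, hf3⟩
    simp only [sel]
    split_ifs with h4
    · exact ⟨h4.2, h4.1, by rw [inv_mul_cancel]; exact one_mem _⟩
    · exact ⟨h3.choose_spec.1.2, h3.choose_spec.1.1, h3.choose_spec.2.2⟩
  · intro U x g h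
    exact if_pos ⟨(hΨ3 ⁅x, g⁆ ⟨x, g, rfl⟩).1, h⟩
  · intro U U' w h
    have e1 : (Ψ w : Set G) ∩ U = (Ψ w : Set G) ∩ U' :=
      Set.ext fun ψ => and_congr_right fun hψ => (h ψ hψ).1
    have e2 : (Ψ w : Set G) ∩ centralizer (U : Set G) =
        (Ψ w : Set G) ∩ centralizer (U' : Set G) :=
      Set.ext fun ψ => and_congr_right fun hψ => (h ψ hψ).2
    simp only [e1, e2]

/-- Modulo a normal subgroup `K` containing the centre, a component of `⁅i, j⁆` in a closed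
subgroup is a commutator `⁅r, u⁆` with `r` any representative of `i` modulo `K`. -/
theorem Closed.component (hG : FC G) {U : Subgroup G} (hU : Closed U) (K : Subgroup G) [K.Normal]
    (hK : center G ≤ K) {i j r f : G} (hr : r⁻¹ * i ∈ K) (hf : f ∈ U)
    (hf' : f⁻¹ * ⁅i, j⁆ ∈ centralizer (U : Set G)) :
    ∃ u ∈ U, ⁅r, u⁆⁻¹ * f ∈ K ∧ ⁅r, u⁆⁻¹ * ⁅r, j⁆ ∈ centralizer (U : Set G) := by
  have := hU.normal
  obtain ⟨S, hS1, hS2, hS3⟩ := exists_test hG U i
  obtain ⟨T, hT1, hT2, hT3⟩ := exists_test hG U r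
  obtain ⟨u, hu, hu'⟩ := hU.approx (S ∪ T) (hS1.union hT1) (union_subset hS2 hT2) j
  refine ⟨u, hu, ?_, hT3 u j (centralizer_le subset_union_right hu')⟩
  have h1 := hS3 u j (centralizer_le subset_union_left hu')
  have h2 : ⁅i, u⁆⁻¹ * f ∈ center G := by
    refine hU.mem_center (mul_mem (inv_mem (comm_mem_right U i hu)) hf) ?_
    convert mul_mem h1 (inv_mem hf') using 1
    group
  convert mul_mem (comm_congr_left K u hr) (hK h2) using 1
  group

variable {C : ∀ (G : Type) [Group G], Prop}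

theorem DV.step (h : DV C) (hG : FC G) {J : Type} [LinearOrder J] [WellFoundedLT J]
    (U : Set J → Subgroup G) (hU : ∀ S, Closed (U S)) (hm : ∀ S T, S ⊆ T → U S ≤ U T)
    (hf : ∀ S x, x ∈ U S → ∃ S0 ⊆ S, S0.Finite ∧ x ∈ U S0) (h0 : U ∅ = ⊥)
    (htop : commutator G ≤ U Set.univ)
    (hsmall : ∀ (α : J) (P : Type) [Group P], FC P → #(commutator P) ≤ #(U (Iic α)) → C P) :
    C G := by
  classical
  let _ : LinearOrder G := linearOrderOfSTO WellOrderingRel
  obtain ⟨π, Ψ, hΨ, hπ1, hπ2, hπ3⟩ := exists_proj hG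
  -- the two monotone predicates of finite character
  let q1 : G → Set J → Prop := fun ψ S => ψ ∈ U S
  let q2 : G → Set J → Prop := fun ψ S => ψ ∉ centralizer (U S : Set G)
  have hm1 : ∀ ψ S T, S ⊆ T → q1 ψ S → q1 ψ T := fun ψ S T hST h => hm S T hST h
  have hm2 : ∀ ψ S T, S ⊆ T → q2 ψ S → q2 ψ T := fun ψ S T hST h h' =>
    h (centralizer_le (hm S T hST) h')
  have hf1 : ∀ ψ S, q1 ψ S → ∃ S0 ⊆ S, S0.Finite ∧ q1 ψ S0 := fun ψ S h => hf S ψ h
  have hf2 : ∀ ψ S, q2 ψ S → ∃ S0 ⊆ S, S0.Finite ∧ q2 ψ S0 := by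
    intro ψ S h
    simp only [q2, mem_centralizer_iff, not_forall] at h ⊢
    obtain ⟨u, hu, hne⟩ := h
    obtain ⟨S0, h1, h2, h3⟩ := hf S u hu
    exact ⟨S0, h1, h2, u, h3, hne⟩
  let act : G → Set J := fun ψ =>
    {β | q1 ψ (Iic β) ∧ ¬ q1 ψ (Iio β)} ∪ {β | q2 ψ (Iic β) ∧ ¬ q2 ψ (Iio β)}
  have hact : ∀ ψ, (act ψ).Finite := fun ψ =>
    (finite_jump _ (hm1 ψ)).union (finite_jump _ (hm2 ψ))
  have hsame : ∀ ψ S S', IsLowerSet S → IsLowerSet S' → S' ⊆ S →
      (∀ β ∈ S, β ∉ S' → β ∉ act ψ) → (ψ ∈ U S' ↔ ψ ∈ U S) ∧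
      (ψ ∈ centralizer (U S' : Set G) ↔ ψ ∈ centralizer (U S : Set G)) := by
    intro ψ S S' hS hS' hsub hno
    refine ⟨⟨hm1 ψ _ _ hsub, fun h1 => ?_⟩, ⟨fun h1 => ?_, fun h1 => ?_⟩⟩
    · by_contra h2
      obtain ⟨β, hβ, hβ', hq⟩ := exists_jump _ (hm1 ψ) (hf1 ψ) hS hS' h1 h2
      exact hno β hβ hβ' (Or.inl hq)
    · by_contra h2
      obtain ⟨β, hβ, hβ', hq⟩ := exists_jump _ (hm2 ψ) (hf2 ψ) hS hS' h2 (not_not.mpr h1)
      exact hno β hβ hβ' (Or.inr hq)
    · exact centralizer_le (hm _ _ hsub) h1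
  have hsame' : ∀ ψ β, β ∉ act ψ → (ψ ∈ U (Iio β) ↔ ψ ∈ U (Iic β)) ∧
      (ψ ∈ centralizer (U (Iio β) : Set G) ↔ ψ ∈ centralizer (U (Iic β) : Set G)) := by
    intro ψ β hβ
    refine hsame ψ _ _ (isLowerSet_Iic β) (isLowerSet_Iio β) Iio_subset_Iic_self ?_
    intro γ h1 h2
    have : γ = β := le_antisymm h1 (not_lt.mp h2)
    rwa [this]
  -- the centralizers of conjugacy classes and the finite control subgroups
  let K : G → Subgroup G := fun k => centralizer (Group.conjugatesOfSet {k})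
  have hKn : ∀ k, (K k).Normal := fun k => normal_centralizer_conjugatesOfSet _
  have hKc : ∀ k, center G ≤ K k := fun k => center_le_centralizer _
  have hΞ : ∀ k : G, ∃ Ξ : Subgroup G, Ξ.Normal ∧ (Ξ : Set G).Finite ∧
      (∀ g, ⁅k, g⁆ ∈ Ξ ∧ Ψ ⁅k, g⁆ ≤ Ξ ∧ Ψ ⁅g, k⁆ ≤ Ξ) ∧
      ∀ i, ∃ r, r⁻¹ * i ∈ K k ∧ ∀ g, ⁅r, g⁆ ∈ Ξ := by
    intro k
    let W : Set G := (range fun g : G => ⁅k, g⁆) ∪
      (⋃ w ∈ range fun g : G => ⁅k, g⁆, (Ψ w : Set G)) ∪
      (⋃ w ∈ range fun g : G => ⁅g, k⁆, (Ψ w : Set G)) ∪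
      ⋃ r ∈ reps (Group.conjugatesOfSet {k}), range fun g : G => ⁅r, g⁆
    have hW : W.Finite := (((hG.finite_comm_left k).union
      ((hG.finite_comm_left k).biUnion fun w _ => (hΨ w).1)).union
      ((hG.finite_comm_right k).biUnion fun w _ => (hΨ w).1)).union
      ((reps_finite hG (hG.finite_conjugatesOfSet (finite_singleton k))).biUnion
        fun r _ => hG.finite_comm_left r)
    have hWG : W ⊆ commutator G := by
      refine union_subset (union_subset (union_subset ?_ ?_) ?_) ?_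
      · rintro _ ⟨g, rfl⟩; exact comm_mem_commutator _ _
      · exact iUnion₂_subset fun w _ => (hΨ w).2
      · exact iUnion₂_subset fun w _ => (hΨ w).2
      · refine iUnion₂_subset fun r _ => ?_
        rintro _ ⟨g, rfl⟩; exact comm_mem_commutator _ _
    refine ⟨normalClosure W, normalClosure_normal, hG.finite_normalClosure hW hWG,
      fun g => ⟨?_, ?_, ?_⟩, fun i => ?_⟩
    · exact subset_normalClosure (Or.inl (Or.inl (Or.inl ⟨g, rfl⟩)))
    · intro x hx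
      exact subset_normalClosure (Or.inl (Or.inl (Or.inr (mem_biUnion ⟨g, rfl⟩ hx))))
    · intro x hx
      exact subset_normalClosure (Or.inl (Or.inr (mem_biUnion ⟨g, rfl⟩ hx)))
    · obtain ⟨r, hr, hr'⟩ := exists_reps (Group.conjugatesOfSet {k}) i
      exact ⟨r, hr', fun g => subset_normalClosure (Or.inr (mem_biUnion hr ⟨g, rfl⟩))⟩
  choose Ξ hΞn hΞf hΞ1 hΞ2 using hΞ
  let Z : J → Set G := fun α => {k | ∀ ψ ∈ Ξ k, α ∉ act ψ}
  let f : Set J → G → G → G := fun S i j => π (U S) ⁅i, j⁆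
  let d : J → G → G → G := fun α i j => (f (Iio α) i j)⁻¹ * f (Iic α) i j
  let D : J → Subgroup G := fun α =>
    U (Iic α) ⊓ centralizer (U (Iio α) : Set G) ⊓ ⨅ k : Z α, K k
  have hDn : ∀ α, (D α).Normal := by
    intro α
    have := (hU (Iic α)).normal
    have := (hU (Iio α)).normal
    have : (⨅ k : Z α, K k).Normal := normal_iInf_normal fun k => hKn k
    infer_instance
  have hd1 : ∀ α w, (∀ ψ ∈ Ψ w, α ∉ act ψ) → π (U (Iio α)) w = π (U (Iic α)) w :=
    fun α w hw => hπ3 _ _ w fun ψ hψ => hsame' ψ α (hw ψ hψ)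
  have hdD : ∀ α i j, d α i j ∈ D α := by
    intro α i j
    obtain ⟨a1, -, a3⟩ := hπ1 _ (hU (Iio α)) i j
    obtain ⟨b1, -, b3⟩ := hπ1 _ (hU (Iic α)) i j
    have hle : U (Iio α) ≤ U (Iic α) := hm _ _ Iio_subset_Iic_self
    refine mem_inf.mpr ⟨mem_inf.mpr ⟨(U (Iic α)).mul_mem (inv_mem (hle a1)) b1, ?_⟩, ?_⟩
    · have := mul_mem a3 (inv_mem (centralizer_le hle b3))
      rwa [mul_inv_rev, inv_inv, mul_assoc, mul_inv_cancel_left] at this
    · refine mem_iInf.mpr fun k => ?_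
      obtain ⟨r, hr, hr'⟩ := hΞ2 k i
      have := hKn k
      obtain ⟨u, hu, hu1, hu2⟩ := (hU (Iio α)).component hG (K k) (hKc k) hr a1 a3
      obtain ⟨v, hv, hv1, hv2⟩ := (hU (Iic α)).component hG (K k) (hKc k) hr b1 b3
      have := (hU (Iio α)).normal
      have := (hU (Iic α)).normal
      have h1 : ⁅r, v⁆ ∈ U (Iio α) :=
        (hsame' _ α (k.2 _ (hr' v))).1.mpr (comm_mem_right _ r hv)
      have h2 : ⁅r, u⁆⁻¹ * ⁅r, v⁆ ∈ center G := by
        refine (hU (Iio α)).mem_center (mul_mem (inv_mem (comm_mem_right _ r hu)) h1) ?_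
        convert mul_mem hu2 (inv_mem (centralizer_le hle hv2)) using 1
        group
      have h3 := mul_mem (mul_mem (inv_mem hu1) (hKc k h2)) hv1
      rwa [mul_inv_rev, inv_inv, mul_assoc, mul_assoc, mul_assoc, mul_inv_cancel_left,
        mul_inv_cancel_left] at h3
  have hc : ∀ α β, α ≠ β → ∀ x ∈ D α, ∀ y ∈ D β, x * y = y * x := by
    have aux : ∀ α β, α < β → ∀ x ∈ D α, ∀ y ∈ D β, x * y = y * x := by
      intro α β hlt x hx y hy
      exact mem_centralizer_iff.mp hy.1.2 x (hm _ _ (Iic_subset_Iio.mpr hlt) hx.1.1)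
    intro α β hne x hx y hy
    rcases lt_or_gt_of_ne hne with h | h
    · exact aux α β h x hx y hy
    · exact (aux β α h y hy x hx).symm
  have hmodel : ∀ α, ∃ (P : Type) (_ : Group P) (ι : D α →* P) (p : G → P),
      IsModel (D α) (d α) ι p ∧ (∀ i ∈ Z α, p i = 1) ∧ FC P ∧ #(commutator P) ≤ #(D α) := by
    intro α
    have hmod : ∀ S, HasModel (U S) (f S) := fun S =>
      (hU S).hasModel hG fun i j _ => ⟨(hπ1 _ (hU S) i j).1, (hπ1 _ (hU S) i j).2.2⟩
    have := (hU (Iio α)).normal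
    have h1 : HasModel (D α) (d α) := by
      refine HasModel.diff (hm _ _ Iio_subset_Iic_self) (inf_le_left.trans inf_le_left) ?_
        (fun i j _ => (hπ1 _ (hU (Iio α)) i j).1) ?_ (hmod (Iio α)) (hmod (Iic α))
      · intro x hx y hy
        exact (mem_centralizer_iff.mp hx.1.2 y hy).symm
      · intro i j _
        exact (mul_inv_cancel_left _ _).symm
    refine h1.refine (fun i j _ => hdD α i j) (Z α) ?_ ?_
    · intro i hi
      refine ⟨fun x hx => ?_, fun j => ⟨?_, ?_⟩⟩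
      · exact mem_centralizer_iff.mp (mem_iInf.mp hx.2 ⟨i, hi⟩) i
          (Group.subset_conjugatesOfSet rfl)
      · simp only [d, f]
        rw [hd1 α _ fun ψ hψ => hi ψ ((hΞ1 i j).2.1 hψ), inv_mul_cancel]
      · simp only [d, f]
        rw [hd1 α _ fun ψ hψ => hi ψ ((hΞ1 i j).2.2 hψ), inv_mul_cancel]
    · intro x
      refine ⟨Ξ x, hΞn x, hΞf x, fun g => ⟨(hΞ1 x g).1, ?_, ?_⟩⟩
      · exact (hΞ1 x g).2.1 (mul_mem (inv_mem (hπ1 _ (hU _) x g).2.1) (hπ1 _ (hU _) x g).2.1)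
      · exact (hΞ1 x g).2.2 (mul_mem (inv_mem (hπ1 _ (hU _) g x).2.1) (hπ1 _ (hU _) g x).2.1)
  choose P instP ι p hM hpZ hFC hcard using hmodel
  refine h.assemble D hc d P ι p hM ?_ ?_ ?_
  · intro α
    refine hsmall α (P α) (hFC α) ((hcard α).trans ?_)
    exact mk_le_mk_of_subset (s := (D α : Set G)) (t := (U (Iic α) : Set G)) fun x hx => hx.1.1
  · intro i
    refine ((hΞf i).biUnion fun ψ _ => hact ψ).subset fun α hα => ?_
    by_contra hcon
    refine hα (hpZ α i fun ψ hψ hα' => hcon (mem_biUnion hψ hα'))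
  · intro i j _
    have hA : (⋃ ψ ∈ (Ψ ⁅i, j⁆ : Set G), act ψ).Finite := (hΨ _).1.biUnion fun ψ _ => hact ψ
    set A := ⋃ ψ ∈ (Ψ ⁅i, j⁆ : Set G), act ψ with hAdef
    have hnA : ∀ β, β ∉ A → ∀ ψ ∈ Ψ ⁅i, j⁆, β ∉ act ψ := fun β hβ ψ hψ h =>
      hβ (mem_biUnion hψ h)
    have hdA : ∀ β, β ∉ A → d β i j = 1 := by
      intro β hβ
      simp only [d, f]
      rw [hd1 β _ (hnA β hβ), inv_mul_cancel]
    have hfA : ∀ S S', IsLowerSet S → IsLowerSet S' → S' ⊆ S → (∀ β ∈ S, β ∉ S' → β ∉ A) →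
        f S' i j = f S i j := fun S S' hS hS' hsub hno =>
      hπ3 _ _ _ fun ψ hψ => hsame ψ S S' hS hS' hsub fun β h1 h2 => hnA β (hno β h1 h2) ψ hψ
    have key : ∀ n : ℕ, ∀ S, IsLowerSet S → (A ∩ S).ncard = n →
        ((fun β => if β ∈ S then d β i j else 1, f S i j) : (J → G) × G) ∈ EE D Set.univ := by
      intro n
      induction n using Nat.strong_induction_on with
      | _ n ih =>
        intro S hS hn
        rcases (A ∩ S).eq_empty_or_nonempty with hemp | hne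
        · have hno : ∀ β ∈ S, β ∉ A := fun β hβ hβA =>
            (Set.eq_empty_iff_forall_notMem.mp hemp β) ⟨hβA, hβ⟩
          have e1 : f S i j = 1 := by
            rw [← hfA S ∅ hS isLowerSet_empty (empty_subset _) fun β hβ _ => hno β hβ]
            have := (hπ1 _ (hU ∅) i j).1
            rw [h0] at this
            simp only [f]
            rw [h0]
            exact mem_bot.mp this
          have e2 : (fun β => if β ∈ S then d β i j else 1) = 1 := by
            funext β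
            split_ifs with hβ
            · exact hdA β (hno β hβ)
            · rfl
          rw [e1, e2]
          exact one_mem _
        · obtain ⟨β, hβ, hmax⟩ := Set.exists_max_image (A ∩ S) id (hA.inter_of_left S) hne
          have hno : ∀ γ ∈ S, γ ∉ Iic β → γ ∉ A := fun γ h1 h2 h3 => h2 (hmax γ ⟨h3, h1⟩)
          have hsub : Iic β ⊆ S := fun γ hγ => hS hγ hβ.2
          have hlt : (A ∩ Iio β).ncard < n := by
            rw [← hn]
            refine Set.ncard_lt_ncard ⟨inter_subset_inter_right _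
              (Iio_subset_Iic_self.trans hsub), fun hcon => ?_⟩ (hA.inter_of_left S)
            exact lt_irrefl β (hcon hβ).2
          have h1 := ih _ hlt (Iio β) (isLowerSet_Iio β) rfl
          have h2 := kap_mem_EE D (mem_univ β) (hdD β i j)
          convert mul_mem h1 h2 using 1
          refine Prod.ext (funext fun γ => ?_) ?_
          · simp only [Prod.fst_mul, Pi.mul_apply, kap_fst]
            rcases lt_trichotomy γ β with hγ | hγ | hγ
            · simp [hγ, hγ.ne, hsub hγ.le]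
            · subst hγ
              simp [hβ.2]
            · have h3 : ¬ γ < β := not_lt.mpr hγ.le
              simp only [mem_Iio, h3, if_false, one_mul, Pi.mulSingle_eq_of_ne hγ.ne']
              split_ifs with hγS
              · exact hdA γ (hno γ hγS (not_le.mpr hγ))
              · rfl
          · change f S i j = f (Iio β) i j * d β i j
            rw [← hfA S (Iic β) hS (isLowerSet_Iic β) hsub hno]
            exact (mul_inv_cancel_left _ _).symm
    have h3 := key _ Set.univ isLowerSet_univ rfl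
    have e1 : f Set.univ i j = ⁅i, j⁆ := hπ2 _ i j (htop (comm_mem_commutator i j))
    rw [e1] at h3
    simpa using h3

theorem DV.of_fc (h : DV C) (κ : Cardinal) :
    ∀ (G : Type) [Group G], FC G → #(commutator G) = κ → C G := by
  induction κ using WellFoundedLT.induction with
  | ind κ ih =>
    intro G _ hG hκ
    rcases le_or_gt κ ℵ₀ with hle | hlt
    · exact h.of_countable hG (mk_le_aleph0_iff.mp (hκ ▸ hle))
    · obtain ⟨e⟩ : Nonempty (κ.ord.ToType ≃ commutator G) :=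
        Cardinal.eq.mp (by rw [mk_ord_toType, hκ])
      obtain ⟨U, hU1, hU2, hU3, hU4, hU5, hU6⟩ := exists_closure hG
      let w : κ.ord.ToType → G := fun α => e α
      refine h.step hG (fun S => U (w '' S)) (fun S => hU1 _)
        (fun S T hST => hU3 _ _ (image_mono hST)) ?_ (by simpa using hU5) ?_ ?_
      · intro S x hx
        obtain ⟨X0, h1, h2, h3⟩ := hU4 _ x hx
        obtain ⟨S0, h4, h5, rfl⟩ := Set.Finite.exists_subset_finite_image_eq h2 h1
        exact ⟨S0, h4, h5, h3⟩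
      · intro x hx
        exact hU2 _ ⟨e.symm ⟨x, hx⟩, mem_univ _, by simp [w]⟩
      · intro α P _ hP hc
        refine ih _ (hc.trans_lt ((hU6 _).trans_lt (max_lt (mk_image_le.trans_lt ?_) hlt))) P hP rfl
        rw [← Iio_insert]
        refine mk_insert_le.trans_lt (add_lt_of_lt hlt.le ((mk_Iio_lt α (by simp)).trans_eq (mk_ord_toType κ)) ?_)
        exact one_lt_aleph0.trans hlt

end Pool.Agent.MP_fb3574_al.H54
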