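import Pool.Agent.MP_fb3574_al.H54.Assemble

/-!
A finitary closure operator producing small closed normal subgroups of an FC-group.
-/

set_option autoImplicit false

namespace Pool.Agent.MP_fb3574_al.H54

open Subgroup Cardinal

section Cl

variable {α : Type}

/-- The least set containing `X` and closed under the finitary operation `Op`. -/
def cl (Op : Finset α → Set α) (X : Set α) : Set α :=
  ⋂₀ {Y | X ⊆ Y ∧ ∀ S : Finset α, ↑S ⊆ Y → Op S ⊆ Y}

variable (Op : Finset α → Set α)

theorem subset_cl (X : Set α) : X ⊆ cl Op X := fun _ hx _ hY => hY.1 hx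

theorem cl_closed (X : Set α) (S : Finset α) (hS : ↑S ⊆ cl Op X) : Op S ⊆ cl Op X :=
  fun _ hx Y hY => hY.2 S (fun _ hs => hS hs Y hY) hx

theorem cl_min {X Y : Set α} (h1 : X ⊆ Y) (h2 : ∀ S : Finset α, ↑S ⊆ Y → Op S ⊆ Y) :
    cl Op X ⊆ Y := fun _ hx => hx Y ⟨h1, h2⟩

theorem cl_mono {X Y : Set α} (h : X ⊆ Y) : cl Op X ⊆ cl Op Y :=
  cl_min Op (h.trans (subset_cl Op Y)) (cl_closed Op Y)

theorem cl_finite_char {X : Set α} {x : α} (hx : x ∈ cl Op X) :
    ∃ X0 ⊆ X, X0.Finite ∧ x ∈ cl Op X0 := by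
  refine cl_min Op (Y := {x | ∃ X0 ⊆ X, X0.Finite ∧ x ∈ cl Op X0}) ?_ ?_ hx
  · intro y hy
    exact ⟨{y}, Set.singleton_subset_iff.mpr hy, Set.finite_singleton y, subset_cl Op _ rfl⟩
  · intro S hS y hy
    have hS' : ∀ s ∈ (S : Set α), ∃ X0 ⊆ X, X0.Finite ∧ s ∈ cl Op X0 := fun s hs => hS hs
    choose! T hT1 hT2 hT3 using hS'
    refine ⟨⋃ s ∈ (S : Set α), T s, Set.iUnion₂_subset fun s hs => hT1 s hs,
      S.finite_toSet.biUnion fun s hs => hT2 s hs, cl_closed Op _ S ?_ hy⟩
    intro s hs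
    exact cl_mono Op (Set.subset_biUnion_of_mem hs) (hT3 s hs)

/-- One step of the closure. -/
def clStep (X : Set α) : Set α := X ∪ ⋃ S : {S : Finset α // ↑S ⊆ X}, Op S

theorem mk_finset_subset_le (X : Set α) : #{S : Finset α // ↑S ⊆ X} ≤ max #X ℵ₀ := by
  classical
  let f : List X → {S : Finset α // ↑S ⊆ X} := fun l => ⟨(l.map Subtype.val).toFinset, by
    intro x hx
    simp only [List.coe_toFinset, List.mem_map, Set.mem_ofPred_eq] at hx
    obtain ⟨a, _, rfl⟩ := hx
    exact a.2⟩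
  have hf : Function.Surjective f := by
    rintro ⟨S, hS⟩
    refine ⟨S.toList.attach.map fun x => ⟨x.1, hS (by simpa using x.2)⟩, Subtype.ext ?_⟩
    ext x
    simp [f]
  exact (mk_le_of_surjective hf).trans ((mk_list_le_max X).trans_eq (max_comm _ _))

theorem mk_clStep_le (hOp : ∀ S, (Op S).Finite) {X : Set α} {κ : Cardinal} (hκ : ℵ₀ ≤ κ)
    (hX : #X ≤ κ) : #(clStep Op X) ≤ κ := by
  unfold clStep
  refine (mk_union_le _ _).trans (add_le_of_le hκ hX ?_)
  refine (mk_iUnion_le _).trans (mul_le_of_le hκ ?_ ?_)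
  · exact (mk_finset_subset_le X).trans (max_le hX hκ)
  · exact ciSup_le' fun S => (hOp S).lt_aleph0.le.trans hκ

theorem mk_cl_le (hOp : ∀ S, (Op S).Finite) (X : Set α) : #(cl Op X) ≤ max #X ℵ₀ := by
  let Y : ℕ → Set α := fun n => (clStep Op)^[n] X
  have hY : ∀ n, Y (n + 1) = clStep Op (Y n) := fun n => Function.iterate_succ_apply' _ _ _
  have hmono : Monotone Y := monotone_nat_of_le_succ fun n => by
    rw [hY]; exact Set.subset_union_left
  have hsub : cl Op X ⊆ ⋃ n, Y n := by
    refine cl_min Op (Set.subset_iUnion Y 0) ?_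
    intro S hS
    have : ∀ s ∈ S, ∃ n, s ∈ Y n := fun s hs => Set.mem_iUnion.mp (hS hs)
    choose! n hn using this
    obtain ⟨m, hm⟩ := (S.finite_toSet.image n).bddAbove
    refine Set.subset_iUnion_of_subset (m + 1) ?_
    rw [hY]
    have hSm : (S : Set α) ⊆ Y m := fun s hs => hmono (hm ⟨s, hs, rfl⟩) (hn s hs)
    intro x hx
    exact Or.inr (Set.mem_iUnion.mpr ⟨⟨S, hSm⟩, hx⟩)
  have hcard : ∀ n, #(Y n) ≤ max #X ℵ₀ := by
    intro n
    induction n with
    | zero => exact le_max_left _ _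
    | succ n ih => rw [hY]; exact mk_clStep_le Op hOp (le_max_right _ _) ih
  refine (mk_le_mk_of_subset hsub).trans ((mk_iUnion_le _).trans ?_)
  refine mul_le_of_le (le_max_right _ _) ?_ (ciSup_le' hcard)
  rw [mk_nat]
  exact le_max_right _ _

end Cl

variable {G : Type} [Group G]

open Classical in
/-- Representatives of the cosets of the centralizer of `S`. -/
noncomputable def reps (S : Set G) : Set G :=
  if centralizer S = ⊤ then {1} else Set.range fun q : G ⧸ centralizer S => q.out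

theorem reps_finite (hG : FC G) {S : Set G} (hS : S.Finite) : (reps S).Finite := by
  unfold reps
  split_ifs
  · exact Set.finite_singleton _
  · have := hG.finiteIndex_centralizer hS
    exact Set.finite_range _

theorem exists_reps (S : Set G) (g : G) : ∃ r ∈ reps S, r⁻¹ * g ∈ centralizer S := by
  unfold reps
  split_ifs with h
  · exact ⟨1, rfl, h ▸ mem_top _⟩
  · exact ⟨_, ⟨(g : G ⧸ centralizer S), rfl⟩, QuotientGroup.eq.mp (QuotientGroup.out_eq' _)⟩

/-- The finitary operation whose closed sets are closed normal subgroups. -/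
def grpOp (S : Finset G) : Set G :=
  {1} ∪ Set.image2 (· * ·) S S ∪ (·⁻¹) '' S ∪ Group.conjugatesOfSet S ∪ reps S

theorem exists_closure (hG : FC G) : ∃ U : Set G → Subgroup G, (∀ X, Closed (U X)) ∧
    (∀ X, X ⊆ (U X : Set G)) ∧ (∀ X Y, X ⊆ Y → U X ≤ U Y) ∧
    (∀ X x, x ∈ U X → ∃ X0 ⊆ X, X0.Finite ∧ x ∈ U X0) ∧ U ∅ = ⊥ ∧
    ∀ X, #(U X) ≤ max #X ℵ₀ := by
  classical
  have hOp : ∀ S : Finset G, (grpOp S).Finite := fun S =>
    ((((Set.finite_singleton _).union (S.finite_toSet.image2 _ S.finite_toSet)).union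
      (S.finite_toSet.image _)).union (hG.finite_conjugatesOfSet S.finite_toSet)).union
      (reps_finite hG S.finite_toSet)
  let U : Set G → Subgroup G := fun X =>
    { carrier := cl grpOp X
      one_mem' := cl_closed grpOp X ∅ (by simp) (by simp [grpOp])
      mul_mem' := by
        intro a b ha hb
        refine cl_closed grpOp X {a, b} (by simp [Set.insert_subset_iff, ha, hb]) ?_
        exact Or.inl (Or.inl (Or.inl (Or.inr ⟨a, by simp, b, by simp, rfl⟩)))
      inv_mem' := by
        intro a ha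
        refine cl_closed grpOp X {a} (by simp [ha]) ?_
        exact Or.inl (Or.inl (Or.inr ⟨a, by simp, rfl⟩)) }
  refine ⟨U, fun X => ⟨⟨?_⟩, ?_⟩, fun X => subset_cl grpOp X, fun X Y h => cl_mono grpOp h,
    fun X x hx => cl_finite_char grpOp hx, ?_, fun X => mk_cl_le grpOp hOp X⟩
  · intro n hn g
    have hn' : n ∈ cl grpOp X := hn
    refine cl_closed grpOp X {n} (by simpa using hn') ?_
    exact Or.inl (Or.inr (Group.conj_mem_conjugatesOfSet
      (Group.subset_conjugatesOfSet (by simp))))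
  · intro S hS hSU g
    obtain ⟨r, hr, hr'⟩ := exists_reps S g
    have hSU' : S ⊆ cl grpOp X := hSU
    refine ⟨r, cl_closed grpOp X hS.toFinset (by simpa using hSU') (Or.inr ?_), hr'⟩
    simpa using hr
  · rw [eq_bot_iff]
    refine cl_min grpOp (Y := ((⊥ : Subgroup G) : Set G)) (Set.empty_subset _) ?_
    intro S hS
    have hS' : ∀ s ∈ (S : Set G), s = 1 := fun s hs => mem_bot.mp (hS hs)
    rintro x ((((hx | ⟨a, ha, b, hb, rfl⟩) | ⟨a, ha, rfl⟩) | hx) | hx)
    · exact hx
    · exact mul_mem (hS ha) (hS hb)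
    · exact inv_mem (hS ha)
    · exact Group.conjugatesOfSet_subset hS hx
    · have : centralizer (S : Set G) = ⊤ := by
        rw [eq_top_iff]
        intro g _
        rw [mem_centralizer_iff]
        intro s hs
        rw [hS' s hs, one_mul, mul_one]
      rw [reps, if_pos this] at hx
      exact hx

end Pool.Agent.MP_fb3574_al.H54
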