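import Pool.Agent.MP_fb3574_al.H54.Basic

/-!
FC-groups with countable derived subgroup lie in every direct variety containing the groups
with finite derived subgroup.
-/

set_option autoImplicit false

namespace Pool.Agent.MP_fb3574_al.H54

open Subgroup
open scoped commutatorElement

variable {G : Type} [Group G]

theorem comm_central {Q : Type} [Group Q] {z w : Q} (hz : ∀ g, g * z = z * g)
    (hw : ∀ g, g * w = w * g) (a b : Q) : ⁅z * a, w * b⁆ = ⁅a, b⁆ := by
  simp only [commutatorElement_def]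
  calc z * a * (w * b) * (z * a)⁻¹ * (w * b)⁻¹
      = (z * (a * (w * b) * a⁻¹)) * z⁻¹ * (b⁻¹ * w⁻¹) := by group
    _ = ((a * (w * b) * a⁻¹) * z) * z⁻¹ * (b⁻¹ * w⁻¹) := by rw [hz]
    _ = a * (w * (b * a⁻¹ * b⁻¹)) * w⁻¹ := by group
    _ = a * ((b * a⁻¹ * b⁻¹) * w) * w⁻¹ := by rw [hw]
    _ = a * b * a⁻¹ * b⁻¹ := by group

/-- Pairs congruent modulo a normal subgroup. -/
def pairs (N : Subgroup G) [hN : N.Normal] : Subgroup (G × G) where
  carrier := {p | p.1 * p.2⁻¹ ∈ N}
  one_mem' := by simp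
  mul_mem' := by
    intro p q hp hq
    have h1 : (p * q).1 * (p * q).2⁻¹ = (p.1 * (q.1 * q.2⁻¹) * p.1⁻¹) * (p.1 * p.2⁻¹) := by
      simp only [Prod.fst_mul, Prod.snd_mul]; group
    change _ ∈ N
    rw [h1]
    exact N.mul_mem (hN.conj_mem _ hq _) hp
  inv_mem' := by
    intro p hp
    have h1 : (p⁻¹).1 * (p⁻¹).2⁻¹ = p.1⁻¹ * (p.1 * p.2⁻¹)⁻¹ * p.1⁻¹⁻¹ := by
      simp only [Prod.fst_inv, Prod.snd_inv]; group
    change _ ∈ N
    rw [h1]
    exact hN.conj_mem _ (N.inv_mem hp) _

/-- The action of congruent pairs on `N` by left and right multiplication. -/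
@[reducible] def pairsAction (N : Subgroup G) [hN : N.Normal] : MulAction (pairs N) N where
  smul t n := ⟨t.1.1 * n * t.1.2⁻¹, by
    have h1 : t.1.1 * n * t.1.2⁻¹ = (t.1.1 * n * t.1.1⁻¹) * (t.1.1 * t.1.2⁻¹) := by group
    rw [h1]
    exact N.mul_mem (hN.conj_mem _ n.2 _) t.2⟩
  one_smul n := by
    apply Subtype.ext
    change (1 : G) * n * (1 : G)⁻¹ = n
    group
  mul_smul s t n := by
    apply Subtype.ext
    change (s.1.1 * t.1.1) * n * (s.1.2 * t.1.2)⁻¹ = s.1.1 * (t.1.1 * n * t.1.2⁻¹) * s.1.2⁻¹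
    group

/-- The permutation representation attached to `pairsAction`. -/
def pairsPerm (N : Subgroup G) [N.Normal] : pairs N →* Equiv.Perm N :=
  @MulAction.toPermHom (pairs N) N _ (pairsAction N)

theorem pairsPerm_apply (N : Subgroup G) [N.Normal] (t : pairs N) (n : N) :
    ((pairsPerm N t n : N) : G) = t.1.1 * n * t.1.2⁻¹ := rfl

theorem finite_commutatorSet_quot (hG : FC G) (N F : Subgroup G) [N.Normal] [F.Normal]
    (hF : (F : Set G).Finite) (hNF : ∀ x ∈ N, ∀ g, ⁅x, g⁆ ∈ F) :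
    Finite (commutatorSet (G ⧸ centralizer (N : Set G))) := by
  have hQ : FC (G ⧸ centralizer (N : Set G)) :=
    hG.of_surjective (QuotientGroup.mk' _) (QuotientGroup.mk'_surjective _)
  set K : Subgroup G := centralizer (F : Set G) with hK
  have hKfin : K.FiniteIndex := hG.finiteIndex_centralizer hF
  have hNK : ⁅N, K⁆ ≤ F := by
    rw [commutator_le]
    intro x hx g _
    exact hNF x hx g
  have hFK : ⁅F, K⁆ = ⊥ := by
    rw [commutator_comm, commutator_eq_bot_iff_le_centralizer]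
  have h1 : ⁅⁅N, K⁆, K⁆ = ⊥ := le_bot_iff.mp (hFK ▸ commutator_mono hNK le_rfl)
  have h2 : ⁅⁅K, N⁆, K⁆ = ⊥ := by rw [commutator_comm K N]; exact h1
  have h3 : ⁅⁅K, K⁆, N⁆ = ⊥ := commutator_commutator_eq_bot_of_rotate h2 h1
  rw [commutator_eq_bot_iff_le_centralizer] at h3
  have hfi : (K.map (QuotientGroup.mk' (centralizer (N : Set G)))).FiniteIndex :=
    ⟨ne_zero_of_dvd_ne_zero hKfin.index_ne_zero
      (K.index_map_dvd (QuotientGroup.mk'_surjective _))⟩
  have hc := hQ.finiteIndex_center (K.map (QuotientGroup.mk' (centralizer (N : Set G)))) (by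
    rintro _ ⟨a, ha, rfl⟩ _ ⟨b, hb, rfl⟩
    rw [← commutatorElement_eq_one_iff_mul_comm, ← map_commutatorElement,
      QuotientGroup.mk'_apply, QuotientGroup.eq_one_iff]
    exact h3 (commutator_mem_commutator ha hb))
  exact finite_commutatorSet_of_center

theorem finite_commutator_piece (hG : FC G) (N F : Subgroup G) [N.Normal] [F.Normal]
    (hF : (F : Set G).Finite) (hNF : ∀ x ∈ N, ∀ g, ⁅x, g⁆ ∈ F) :
    Finite (commutator (pairsPerm N).range) := by
  have hQ := finite_commutatorSet_quot hG N F hF hNF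
  have hFf : Finite F := hF.to_subtype
  suffices h : Finite (commutatorSet (pairsPerm N).range) from inferInstance
  let ev : (pairsPerm N).range → (N → G) := fun σ n => ((σ : Equiv.Perm N) n : N)
  have hev : Function.Injective ev := by
    intro σ τ h
    apply Subtype.ext
    ext n
    exact congrFun h n
  let φ : F × commutatorSet (G ⧸ centralizer (N : Set G)) → (N → G) :=
    fun p n => p.1 * (p.2.1.out * n * p.2.1.out⁻¹)
  refine (Set.Finite.of_finite_image (f := ev) ((Set.finite_range φ).subset ?_)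
    hev.injOn).to_subtype
  rintro _ ⟨_, ⟨⟨_, s, rfl⟩, ⟨_, t, rfl⟩, rfl⟩, rfl⟩
  have hcen : ∀ x ∈ N, ∀ q : G ⧸ F, q * (x : G ⧸ F) = (x : G ⧸ F) * q := by
    intro x hx q
    obtain ⟨g, rfl⟩ := QuotientGroup.mk_surjective q
    symm
    rw [← commutatorElement_eq_one_iff_mul_comm]
    change ⁅QuotientGroup.mk' F x, QuotientGroup.mk' F g⁆ = 1
    rw [← map_commutatorElement, QuotientGroup.mk'_apply, QuotientGroup.eq_one_iff]
    exact hNF x hx g
  have hf : ⁅s.1.1, t.1.1⁆ * ⁅s.1.2, t.1.2⁆⁻¹ ∈ F := by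
    rw [← QuotientGroup.eq_one_iff, QuotientGroup.mk_mul, QuotientGroup.mk_inv,
      mul_inv_eq_one]
    change QuotientGroup.mk' F _ = QuotientGroup.mk' F _
    rw [map_commutatorElement, map_commutatorElement]
    have e1 : s.1.1 = (s.1.1 * s.1.2⁻¹) * s.1.2 := by group
    have e2 : t.1.1 = (t.1.1 * t.1.2⁻¹) * t.1.2 := by group
    rw [e1, e2, map_mul, map_mul (QuotientGroup.mk' F) (t.1.1 * t.1.2⁻¹)]
    exact comm_central (hcen _ s.2) (hcen _ t.2) _ _
  refine ⟨(⟨_, hf⟩, ⟨(⁅s.1.2, t.1.2⁆ : G), ⟨(s.1.2 : G), (t.1.2 : G), ?_⟩⟩), ?_⟩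
  · change ⁅QuotientGroup.mk' _ _, QuotientGroup.mk' _ _⁆ = QuotientGroup.mk' _ _
    rw [map_commutatorElement]
  · funext n
    obtain ⟨c, hc⟩ := QuotientGroup.mk_out_eq_mul (centralizer (N : Set G)) ⁅s.1.2, t.1.2⁆
    have hcn : (n : G) * c = c * n := mem_centralizer_iff.mp c.2 n n.2
    have e3 : ev ⁅(⟨pairsPerm N s, s, rfl⟩ : (pairsPerm N).range), ⟨pairsPerm N t, t, rfl⟩⁆ n
        = ⁅s.1.1, t.1.1⁆ * n * ⁅s.1.2, t.1.2⁆⁻¹ := by
      change ((⁅pairsPerm N s, pairsPerm N t⁆ n : N) : G) = _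
      rw [← map_commutatorElement, pairsPerm_apply]
      rfl
    rw [e3]
    simp only [φ, hc]
    generalize ⁅s.1.1, t.1.1⁆ = u
    generalize ⁅s.1.2, t.1.2⁆ = v
    calc u * v⁻¹ * (v * c * n * (v * c)⁻¹) = u * (c * n) * (c : G)⁻¹ * v⁻¹ := by group
      _ = u * (n * c) * (c : G)⁻¹ * v⁻¹ := by rw [hcn]
      _ = u * n * v⁻¹ := by group

/-- Elements whose commutators all lie in the normal subgroup `F`. -/
def upper (F : Subgroup G) [F.Normal] : Subgroup G :=
  (center (G ⧸ F)).comap (QuotientGroup.mk' F)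

instance (F : Subgroup G) [F.Normal] : (upper F).Normal := by
  unfold upper; infer_instance

theorem mem_upper (F : Subgroup G) [F.Normal] (x : G) : x ∈ upper F ↔ ∀ g, ⁅x, g⁆ ∈ F := by
  unfold upper
  rw [mem_comap, mem_center_iff]
  constructor
  · intro h g
    rw [← QuotientGroup.eq_one_iff]
    change QuotientGroup.mk' F _ = 1
    rw [map_commutatorElement, commutatorElement_eq_one_iff_mul_comm]
    exact (h _).symm
  · intro h q
    obtain ⟨g, rfl⟩ := QuotientGroup.mk'_surjective F q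
    symm
    rw [← commutatorElement_eq_one_iff_mul_comm, ← map_commutatorElement,
      QuotientGroup.mk'_apply, QuotientGroup.eq_one_iff]
    exact h g

/-- Eventually trivial sequences whose consecutive terms are congruent modulo `N k`. -/
def seqs (N : ℕ → Subgroup G) [∀ k, (N k).Normal] : Subgroup (ℕ → G) where
  carrier := {g | (∀ k, (g k, g (k + 1)) ∈ pairs (N k)) ∧ ∃ m, ∀ k ≥ m, g k = 1}
  one_mem' := ⟨fun k => one_mem _, 0, fun _ _ => rfl⟩
  mul_mem' := by
    rintro a b ⟨ha, m, hm⟩ ⟨hb, n, hn⟩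
    refine ⟨fun k => mul_mem (ha k) (hb k), max m n, fun k hk => ?_⟩
    rw [Pi.mul_apply, hm k (le_trans (le_max_left _ _) hk), hn k (le_trans (le_max_right _ _) hk),
      one_mul]
  inv_mem' := by
    rintro a ⟨ha, m, hm⟩
    exact ⟨fun k => inv_mem (ha k), m, fun k hk => by rw [Pi.inv_apply, hm k hk, inv_one]⟩

variable {C : ∀ (G : Type) [Group G], Prop}

theorem DV.of_countable (h : DV C) (hG : FC G) (hc : Countable (commutator G)) : C G := by
  obtain ⟨w, hw⟩ := exists_surjective_nat (commutator G)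
  let F : ℕ → Subgroup G := fun k => normalClosure ((fun i => (w i : G)) '' Set.Iic k)
  have hFn : ∀ k, (F k).Normal := fun k => normalClosure_normal
  have hFf : ∀ k, (F k : Set G).Finite := fun k =>
    hG.finite_normalClosure ((Set.finite_Iic k).image _) (by
      rintro _ ⟨i, _, rfl⟩; exact (w i).2)
  let N : ℕ → Subgroup G := fun k => upper (F k)
  have hN : ∀ x : G, ∃ k, x ∈ N k := by
    intro x
    choose idx hidx using fun g : G => hw ⟨⁅x, g⁆, comm_mem_commutator x g⟩
    have hfin := hG.finite_comm_left x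
    have : ∀ y ∈ Set.range fun g : G => ⁅x, g⁆, ∃ i, (w i : G) = y := by
      rintro _ ⟨g, rfl⟩
      exact ⟨idx g, by rw [hidx g]⟩
    choose! j hj using this
    obtain ⟨k, hk⟩ := (hfin.image j).bddAbove
    refine ⟨k, (mem_upper _ _).mpr fun g => subset_normalClosure ⟨j ⁅x, g⁆, ?_, hj _ ⟨g, rfl⟩⟩⟩
    exact hk ⟨_, ⟨g, rfl⟩, rfl⟩
  let P : ℕ → Type := fun k => (pairsPerm (N k)).range
  have hP : ∀ k, C (P k) := fun k =>
    h.fin _ (finite_commutator_piece hG (N k) (F k) (hFf k) fun x hx => (mem_upper _ _).mp hx)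
  let toPair : ∀ k, seqs N →* pairs (N k) := fun k =>
    { toFun := fun g => ⟨(g.1 k, g.1 (k + 1)), g.2.1 k⟩
      map_one' := rfl
      map_mul' := fun _ _ => rfl }
  let f : seqs N →* ∀ k, P k :=
    MonoidHom.pi fun k => (pairsPerm (N k)).rangeRestrict.comp (toPair k)
  have hH : C (seqs N) := by
    refine h.of_embed P hP f ?_ ?_
    · rw [injective_iff_map_eq_one]
      intro g hg
      have h1 : ∀ k, g.1 k = g.1 (k + 1) := by
        intro k
        have h2 : pairsPerm (N k) (toPair k g) = 1 := congrArg Subtype.val (congrFun hg k)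
        have h3 := pairsPerm_apply (N k) (toPair k g) 1
        rw [h2] at h3
        have h4 : (1 : G) = g.1 k * 1 * (g.1 (k + 1))⁻¹ := h3
        rw [mul_one] at h4
        exact mul_inv_eq_one.mp h4.symm
      obtain ⟨m, hm⟩ := g.2.2
      have h5 : ∀ k, g.1 k = g.1 0 := by
        intro k
        induction k with
        | zero => rfl
        | succ k ih => rw [← h1 k, ih]
      apply Subtype.ext
      funext k
      rw [h5 k, ← h5 m, hm m le_rfl]
      rfl
    · intro g
      obtain ⟨m, hm⟩ := g.2.2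
      refine (Set.finite_Iio m).subset ?_
      intro k hk
      by_contra hkm
      apply hk
      have hk' : m ≤ k := not_lt.mp hkm
      have : toPair k g = 1 := by
        apply Subtype.ext
        exact Prod.ext (hm k hk') (hm (k + 1) (by omega))
      change (pairsPerm (N k)).rangeRestrict (toPair k g) = 1
      rw [this, map_one]
  refine h.of_surjective ((Pi.evalMonoidHom (fun _ : ℕ => G) 0).comp (seqs N).subtype) ?_ hH
  intro x
  obtain ⟨k, hk⟩ := hN x
  refine ⟨⟨fun i => if i ≤ k then x else 1, ?_, k + 1, ?_⟩, by simp⟩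
  · intro i
    change _ * _ ∈ N i
    rcases lt_trichotomy i k with hik | hik | hik
    · simp [hik.le, Nat.succ_le_of_lt hik]
    · subst hik; simpa using hk
    · have h1 : ¬ i ≤ k := by omega
      have h2 : ¬ i + 1 ≤ k := by omega
      simp [h1, h2]
  · intro i hi
    have h1 : ¬ i ≤ k := by omega
    simp [h1]

end Pool.Agent.MP_fb3574_al.H54
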