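import Pool.Agent.MP_fb3574_al.H54.Countable

/-!
Models: groups that extend a normal subgroup `D` of `G` by elements `p i` acting on `D` as the
elements `i` of `G` do and having prescribed commutators.
-/

set_option autoImplicit false

namespace Pool.Agent.MP_fb3574_al.H54

open Subgroup
open scoped commutatorElement

variable {G : Type} [Group G]

/-- A model of the commutator table `d` over the subgroup `D`. -/
structure IsModel [LinearOrder G] (D : Subgroup G) (d : G → G → G) {P : Type} [Group P]
    (ι : D →* P) (p : G → P) : Prop where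
  inj : Function.Injective ι
  conj : ∀ (i : G) (f f' : D), (f' : G) = i * f * i⁻¹ → p i * ι f * (p i)⁻¹ = ι f'
  comm : ∀ i j, i < j → ∀ f : D, (f : G) = d i j → ⁅p i, p j⁆ = ι f

/-- Existence of a model. -/
def HasModel [LinearOrder G] (D : Subgroup G) (d : G → G → G) : Prop :=
  ∃ (P : Type) (_ : Group P) (ι : D →* P) (p : G → P), IsModel D d ι p

section Heis

variable {A : Type} [CommGroup A] {I : Type}

/-- The character of the free abelian group with prescribed values on the basis. -/
noncomputable def chr (c : I → A) (v : I →₀ ℤ) : A := v.prod fun j n => c j ^ n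

theorem chr_add_single (c : I → A) (v : I →₀ ℤ) (j : I) :
    chr c (v + Finsupp.single j 1) = chr c v * c j := by
  unfold chr
  rw [Finsupp.prod_add_index' (fun _ => zpow_zero _) (fun _ _ _ => zpow_add _ _ _),
    Finsupp.prod_single_index (zpow_zero _), zpow_one]

/-- The twisted shift. -/
noncomputable def shift (c : I → A) (i : I) : Equiv.Perm (A × (I →₀ ℤ)) where
  toFun x := (x.1 * chr c x.2, x.2 + Finsupp.single i 1)
  invFun x := (x.1 * (chr c (x.2 - Finsupp.single i 1))⁻¹, x.2 - Finsupp.single i 1)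
  left_inv x := by simp
  right_inv x := by simp

/-- Translation in the first coordinate. -/
def transl : A →* Equiv.Perm (A × (I →₀ ℤ)) where
  toFun a := Equiv.prodCongr (Equiv.mulLeft a) (Equiv.refl _)
  map_one' := by ext x <;> simp
  map_mul' a b := by ext x <;> simp [mul_assoc]

theorem exists_heis [LinearOrder I] (c : I → I → A) :
    ∃ (P : Type) (_ : Group P) (ι : A →* P) (t : I → P), Function.Injective ι ∧
      (∀ i a, t i * ι a = ι a * t i) ∧ ∀ i j, i < j → ⁅t i, t j⁆ = ι (c i j) := by
  let c' : I → I → A := fun i j => if i < j then c i j else 1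
  refine ⟨Equiv.Perm (A × (I →₀ ℤ)), inferInstance, transl, fun i => shift (c' i) i, ?_, ?_, ?_⟩
  · intro a b hab
    have := congrArg (fun σ : Equiv.Perm (A × (I →₀ ℤ)) => (σ (1, 0)).1) hab
    simpa [transl] using this
  · intro i a
    ext x
    · simp [transl, shift, mul_assoc]
    · simp [transl, shift]
  · intro i j hij
    have h : shift (c' i) i * shift (c' j) j = transl (c i j) * (shift (c' j) j * shift (c' i) i) := by
      have h1 : c' i j = c i j := if_pos hij
      have h2 : c' j i = 1 := if_neg (not_lt.mpr hij.le)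
      apply Equiv.ext
      intro x
      apply Prod.ext
      · change x.1 * chr (c' j) x.2 * chr (c' i) (x.2 + Finsupp.single j 1) =
          c i j * (x.1 * chr (c' i) x.2 * chr (c' j) (x.2 + Finsupp.single i 1))
        rw [chr_add_single, chr_add_single, h1, h2, mul_one]
        simp only [mul_comm, mul_left_comm, mul_assoc]
      · change x.2 + Finsupp.single j 1 + Finsupp.single i 1 =
          x.2 + Finsupp.single i 1 + Finsupp.single j 1
        abel
    rw [commutatorElement_def, h]
    group

end Heis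

variable [LinearOrder G]

theorem hasModel_central (A : Subgroup G) (hA : A ≤ center G) (c : G → G → G)
    (hc : ∀ i j, i < j → c i j ∈ A) : HasModel A c := by
  classical
  let _ : CommGroup A :=
    { (inferInstance : Group A) with
      mul_comm := fun a b => Subtype.ext (mem_center_iff.mp (hA b.2) a) }
  obtain ⟨P, _, ι, t, h1, h2, h3⟩ :=
    exists_heis (A := A) (I := G) fun i j => if h : i < j then ⟨c i j, hc i j h⟩ else 1
  refine ⟨P, inferInstance, ι, t, h1, ?_, ?_⟩
  · intro i f f' hf
    have : f' = f := by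
      apply Subtype.ext
      rw [hf, mem_center_iff.mp (hA f.2) i]
      group
    rw [this, h2]
    group
  · intro i j hij f hf
    rw [h3 i j hij, dif_pos hij]
    congr 1
    exact Subtype.ext hf.symm

theorem IsModel.conj_inv {D : Subgroup G} {d : G → G → G} {P : Type} [Group P]
    {ι : D →* P} {p : G → P} (h : IsModel D d ι p) (i : G) (f f' : D)
    (hf : (f' : G) = i⁻¹ * f * i) : (p i)⁻¹ * ι f * p i = ι f' := by
  rw [← h.conj i f' f (by rw [hf]; group)]
  group

omit [LinearOrder G] in
theorem mem_normalizer_range {H K : Type} [Group H] [Group K] (δ : H →* K) (x : K)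
    (h1 : ∀ a, ∃ b, x * δ a * x⁻¹ = δ b) (h2 : ∀ a, ∃ b, x⁻¹ * δ a * x = δ b) :
    x ∈ normalizer (δ.range : Set K) := by
  rw [mem_normalizer_iff]
  intro h
  constructor
  · rintro ⟨a, rfl⟩
    obtain ⟨b, hb⟩ := h1 a
    exact ⟨b, hb.symm⟩
  · rintro ⟨a, ha⟩
    obtain ⟨b, hb⟩ := h2 a
    refine ⟨b, ?_⟩
    rw [← hb, ha]
    group

/-- The difference of two models. -/
theorem HasModel.diff {F F' D : Subgroup G} [hFn : F.Normal] (hFF : F ≤ F') (hDF : D ≤ F')
    (hcomm : ∀ x ∈ D, ∀ y ∈ F, x * y = y * x) {f f' d : G → G → G}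
    (hf : ∀ i j, i < j → f i j ∈ F) (hd : ∀ i j, i < j → f' i j = f i j * d i j)
    (h : HasModel F f) (h' : HasModel F' f') : HasModel D d := by
  obtain ⟨M, _, ι, m, hM⟩ := h
  obtain ⟨M', _, ι', m', hM'⟩ := h'
  let δ : F →* M' × M := (ι'.comp (inclusion hFF)).prod ι
  let L : Subgroup (M' × M) := normalizer (δ.range : Set (M' × M))
  let κ : D →* M' × M := (ι'.comp (inclusion hDF)).prod 1
  have hκδ : ∀ x a, κ x * δ a = δ a * κ x := by
    intro x a
    apply Prod.ext
    · change ι' _ * ι' _ = ι' _ * ι' _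
      rw [← map_mul, ← map_mul]
      congr 1
      exact Subtype.ext (hcomm x x.2 a a.2)
    · simp [κ]
  have hκ : ∀ x, κ x ∈ L := by
    intro x
    refine mem_normalizer_range δ _ (fun a => ⟨a, ?_⟩) (fun a => ⟨a, ?_⟩)
    · rw [hκδ]; group
    · rw [mul_assoc, ← hκδ]; group
  have hm : ∀ i, (m' i, m i) ∈ L := by
    intro i
    refine mem_normalizer_range δ _ (fun a => ⟨⟨i * a * i⁻¹, hFn.conj_mem _ a.2 i⟩, ?_⟩)
      (fun a => ⟨⟨i⁻¹ * a * i, by simpa using hFn.conj_mem _ a.2 i⁻¹⟩, ?_⟩)
    · exact Prod.ext (hM'.conj i _ _ rfl) (hM.conj i _ _ rfl)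
    · exact Prod.ext (hM'.conj_inv i _ _ rfl) (hM.conj_inv i _ _ rfl)
  let π : L →* L ⧸ δ.range.subgroupOf L := QuotientGroup.mk' _
  refine ⟨L ⧸ δ.range.subgroupOf L, inferInstance, π.comp (κ.codRestrict L hκ),
    fun i => π ⟨(m' i, m i), hm i⟩, ?_, ?_, ?_⟩
  · rw [injective_iff_map_eq_one]
    intro x hx
    have h1 : κ x ∈ δ.range := by
      have := (QuotientGroup.eq_one_iff _).mp hx
      exact mem_subgroupOf.mp this
    obtain ⟨a, ha⟩ := h1
    have h2 : ι a = 1 := congrArg Prod.snd ha
    have h3 : a = 1 := (injective_iff_map_eq_one ι).mp hM.inj a h2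
    have h4 : ι' (inclusion hDF x) = 1 := by
      have := congrArg Prod.fst ha
      rw [h3, map_one] at this
      exact this.symm
    have h5 := (injective_iff_map_eq_one ι').mp hM'.inj _ h4
    have h6 : ((inclusion hDF x : F') : G) = ((1 : F') : G) := congrArg Subtype.val h5
    exact Subtype.ext h6
  · intro i x x' hx
    change π _ * π _ * (π _)⁻¹ = π _
    rw [← map_inv, ← map_mul, ← map_mul]
    congr 1
    apply Subtype.ext
    apply Prod.ext
    · exact hM'.conj i _ _ hx
    · change m i * 1 * (m i)⁻¹ = 1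
      group
  · intro i j hij x hx
    change ⁅π _, π _⁆ = π _
    rw [← map_commutatorElement]
    apply Eq.symm
    apply QuotientGroup.eq.mpr
    rw [mem_subgroupOf]
    refine ⟨⟨f i j, hf i j hij⟩, ?_⟩
    have e1 : ⁅m' i, m' j⁆ = ι' (inclusion hFF ⟨f i j, hf i j hij⟩ * inclusion hDF x) :=
      hM'.comm i j hij _ (by rw [hd i j hij, ← hx]; rfl)
    have e2 : ⁅m i, m j⁆ = ι ⟨f i j, hf i j hij⟩ := hM.comm i j hij _ rfl
    have e3 : (⁅(m' i, m i), (m' j, m j)⁆ : M' × M) = δ ⟨f i j, hf i j hij⟩ * κ x := by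
      apply Prod.ext
      · change ⁅m' i, m' j⁆ = _
        rw [e1, map_mul]; rfl
      · change ⁅m i, m j⁆ = _
        rw [e2]; simp [δ, κ]
    change δ _ = (κ x)⁻¹ * ⁅(m' i, m i), (m' j, m j)⁆
    rw [e3, ← hκδ]
    group

/-- Changing a commutator table by central elements. -/
theorem HasModel.twist {D : Subgroup G} {e f : G → G → G}
    (hef : ∀ i j, i < j → e i j * (f i j)⁻¹ ∈ D ⊓ center G) (h : HasModel D e) :
    HasModel D f := by
  have hn : (D ⊓ center G).Normal := by
    refine ⟨fun n hn g => ?_⟩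
    have : g * n * g⁻¹ = n := by rw [mem_center_iff.mp hn.2 g]; group
    rw [this]; exact hn
  refine HasModel.diff (F := D ⊓ center G) (F' := D) (f := fun i j => e i j * (f i j)⁻¹)
    (f' := e) inf_le_left le_rfl ?_ hef ?_ (hasModel_central _ inf_le_right _ hef) h
  · intro x _ y hy
    exact mem_center_iff.mp hy.2 x
  · intro i j _
    group

end Pool.Agent.MP_fb3574_al.H54
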