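import Pool.Agent.MP_fb3574_al.H54.Approx

/-!
Refining a model: it can be taken to be an FC-group with small derived subgroup.
-/

set_option autoImplicit false

namespace Pool.Agent.MP_fb3574_al.H54

open Subgroup Cardinal
open scoped commutatorElement

section Gen

variable {H : Type} [Group H]

theorem comm_mem_of_gen {S : Set H} (hS : closure S = ⊤) (N : Subgroup H) [N.Normal] {s : H}
    (hs : ∀ t ∈ S, ⁅s, t⁆ ∈ N) (g : H) : ⁅s, g⁆ ∈ N := by
  have key : ∀ t, ⁅s, t⁆ ∈ N ↔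
      t ∈ (centralizer {QuotientGroup.mk' N s}).comap (QuotientGroup.mk' N) := by
    intro t
    rw [mem_comap, mem_centralizer_singleton_iff, ← QuotientGroup.eq_one_iff]
    change QuotientGroup.mk' N _ = 1 ↔ _
    rw [map_commutatorElement, commutatorElement_eq_one_iff_mul_comm, eq_comm]
  rw [key]
  have : closure S ≤ (centralizer {QuotientGroup.mk' N s}).comap (QuotientGroup.mk' N) := by
    rw [closure_le]
    intro t ht
    exact (key t).mp (hs t ht)
  exact this (hS ▸ mem_top g)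

theorem commutator_le_of_gen {S : Set H} (hS : closure S = ⊤) (N : Subgroup H) [N.Normal]
    (hs : ∀ s ∈ S, ∀ t ∈ S, ⁅s, t⁆ ∈ N) : commutator H ≤ N := by
  have h1 : closure S ≤ upper N := by
    rw [closure_le]
    intro s hs'
    exact (mem_upper N s).mpr (comm_mem_of_gen hS N (hs s hs'))
  rw [commutator_def, commutator_le]
  intro a _ b _
  exact (mem_upper N a).mp (h1 (hS ▸ mem_top a)) b

/-- The elements with finitely many conjugates. -/
def fcSub (H : Type) [Group H] : Subgroup H where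
  carrier := {x | {h : H | IsConj x h}.Finite}
  one_mem' := by
    refine (Set.finite_singleton (1 : H)).subset ?_
    intro h hh
    exact isConj_one_right.mp hh
  mul_mem' := by
    intro a b ha hb
    refine (ha.image2 (· * ·) hb).subset ?_
    intro h hh
    obtain ⟨c, rfl⟩ := isConj_iff.mp hh
    exact ⟨c * a * c⁻¹, isConj_iff.mpr ⟨c, rfl⟩, c * b * c⁻¹, isConj_iff.mpr ⟨c, rfl⟩, by group⟩
  inv_mem' := by
    intro a ha
    refine (ha.image (·⁻¹)).subset ?_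
    intro h hh
    obtain ⟨c, rfl⟩ := isConj_iff.mp hh
    exact ⟨c * a * c⁻¹, isConj_iff.mpr ⟨c, rfl⟩, by group⟩

theorem fc_of_gen {S : Set H} (hS : closure S = ⊤)
    (hs : ∀ s ∈ S, ∃ N : Subgroup H, N.Normal ∧ (N : Set H).Finite ∧ ∀ t ∈ S, ⁅s, t⁆ ∈ N) :
    FC H := by
  have h1 : closure S ≤ fcSub H := by
    rw [closure_le]
    intro s hs'
    obtain ⟨N, hN, hNf, h⟩ := hs s hs'
    refine (hNf.image (· * s)).subset ?_
    intro h hh
    obtain ⟨c, rfl⟩ := isConj_iff.mp hh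
    refine ⟨⁅s, c⁆⁻¹, N.inv_mem (comm_mem_of_gen hS N h c), ?_⟩
    simp only [commutatorElement_def]
    group
  intro g
  exact h1 (hS ▸ mem_top g)

theorem normal_range_of_gen {S : Set H} (hS : closure S = ⊤) {K : Type} [Group K] (δ : K →* H)
    (h1 : ∀ s ∈ S, ∀ a, ∃ b, s * δ a * s⁻¹ = δ b) (h2 : ∀ s ∈ S, ∀ a, ∃ b, s⁻¹ * δ a * s = δ b) :
    δ.range.Normal := by
  rw [← normalizer_eq_top_iff, eq_top_iff, ← hS, closure_le]
  intro s hs
  exact mem_normalizer_range δ s (h1 s hs) (h2 s hs)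

end Gen

variable {G : Type} [Group G] [LinearOrder G]

theorem IsModel.kill {D : Subgroup G} {d : G → G → G} {P : Type} [Group P]
    {ι : D →* P} {p : G → P} (h : IsModel D d ι p) (Z : Set G) [DecidablePred (· ∈ Z)]
    (hZ : ∀ i ∈ Z, (∀ f ∈ D, i * f = f * i) ∧ ∀ j, d i j = 1 ∧ d j i = 1) :
    IsModel D d ι (fun i => if i ∈ Z then 1 else p i) := by
  refine ⟨h.inj, ?_, ?_⟩
  · intro i f f' hf
    split_ifs with hi
    · have : f' = f := Subtype.ext (by rw [hf, (hZ i hi).1 f f.2]; group)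
      rw [this]; group
    · exact h.conj i f f' hf
  · intro i j hij f hf
    split_ifs with hi hj hj
    · have : f = 1 := Subtype.ext (by rw [hf, ((hZ i hi).2 j).1]; rfl)
      rw [this]; simp
    · have : f = 1 := Subtype.ext (by rw [hf, ((hZ i hi).2 j).1]; rfl)
      rw [this]; simp
    · have : f = 1 := Subtype.ext (by rw [hf, ((hZ j hj).2 i).2]; rfl)
      rw [this]; simp
    · exact h.comm i j hij f hf

theorem IsModel.good {D : Subgroup G} [hDn : D.Normal] {d : G → G → G} {P : Type} [Group P]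
    {ι : D →* P} {p : G → P} (h : IsModel D d ι p) (hd : ∀ i j, i < j → d i j ∈ D)
    (hΨ : ∀ x, ∃ Ψ : Subgroup G, Ψ.Normal ∧ (Ψ : Set G).Finite ∧
      ∀ g, ⁅x, g⁆ ∈ Ψ ∧ d x g ∈ Ψ ∧ d g x ∈ Ψ)
    (hS : closure (Set.range ι ∪ Set.range p) = ⊤) : FC P ∧ #(commutator P) ≤ #D := by
  have hnorm : ∀ (Ψ : Subgroup G) [Ψ.Normal], (ι.comp (Ψ.subgroupOf D).subtype).range.Normal := by
    intro Ψ hΨn
    refine normal_range_of_gen hS _ ?_ ?_
    · rintro _ (⟨f, rfl⟩ | ⟨i, rfl⟩) a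
      · refine ⟨⟨f * a * f⁻¹, ?_⟩, by simp⟩
        exact hΨn.conj_mem _ (mem_subgroupOf.mp a.2) _
      · exact ⟨⟨⟨i * a * i⁻¹, hDn.conj_mem _ a.1.2 i⟩,
          hΨn.conj_mem _ (mem_subgroupOf.mp a.2) _⟩, h.conj i _ _ rfl⟩
    · rintro _ (⟨f, rfl⟩ | ⟨i, rfl⟩) a
      · refine ⟨⟨f⁻¹ * a * f, ?_⟩, by simp⟩
        have := hΨn.conj_mem _ (mem_subgroupOf.mp a.2) (f⁻¹ : D)
        simpa [mem_subgroupOf] using this
      · refine ⟨⟨⟨i⁻¹ * a * i, by simpa using hDn.conj_mem _ a.1.2 i⁻¹⟩, ?_⟩,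
          h.conj_inv i _ _ rfl⟩
        have := hΨn.conj_mem _ (mem_subgroupOf.mp a.2) i⁻¹
        simpa [mem_subgroupOf] using this
  have hmem : ∀ (Ψ : Subgroup G) (f : D), (f : G) ∈ Ψ →
      ι f ∈ (ι.comp (Ψ.subgroupOf D).subtype).range := fun Ψ f hf =>
    ⟨⟨f, mem_subgroupOf.mpr hf⟩, rfl⟩
  have hpι : ∀ (i : G) (f : D), ⁅p i, ι f⁆ = ι ⟨⁅i, (f : G)⁆, comm_mem_right D i f.2⟩ := by
    intro i f
    rw [commutatorElement_def, h.conj i f ⟨i * f * i⁻¹, hDn.conj_mem _ f.2 i⟩ rfl, ← map_inv,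
      ← map_mul]
    rfl
  have key : ∀ (Ψ : Subgroup G) (x : G), (∀ g, ⁅x, g⁆ ∈ Ψ ∧ d x g ∈ Ψ ∧ d g x ∈ Ψ) →
      (∀ t ∈ Set.range ι ∪ Set.range p, ⁅p x, t⁆ ∈ (ι.comp (Ψ.subgroupOf D).subtype).range) ∧
      ∀ hx : x ∈ D, ∀ t ∈ Set.range ι ∪ Set.range p,
        ⁅ι ⟨x, hx⟩, t⁆ ∈ (ι.comp (Ψ.subgroupOf D).subtype).range := by
    intro Ψ x hx
    constructor
    · rintro _ (⟨f, rfl⟩ | ⟨j, rfl⟩)
      · rw [hpι]
        exact hmem Ψ _ (hx f).1
      · rcases lt_trichotomy x j with hxj | hxj | hxj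
        · rw [h.comm x j hxj ⟨d x j, hd x j hxj⟩ rfl]
          exact hmem Ψ _ (hx j).2.1
        · subst hxj
          simp
        · rw [← commutatorElement_inv, h.comm j x hxj ⟨d j x, hd j x hxj⟩ rfl]
          exact inv_mem (hmem Ψ _ (hx j).2.2)
    · rintro hxD _ (⟨f, rfl⟩ | ⟨j, rfl⟩)
      · rw [← map_commutatorElement]
        exact hmem Ψ _ (hx f).1
      · rw [← commutatorElement_inv, hpι]
        refine inv_mem (hmem Ψ _ ?_)
        have := inv_mem (hx j).1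
        rwa [commutatorElement_inv] at this
  constructor
  · refine fc_of_gen hS ?_
    have hfin : ∀ Ψ : Subgroup G, (Ψ : Set G).Finite →
        ((ι.comp (Ψ.subgroupOf D).subtype).range : Set P).Finite := by
      intro Ψ hΨf
      have : Finite Ψ := hΨf.to_subtype
      have : Finite (Ψ.subgroupOf D) := Finite.of_injective
        (fun a : Ψ.subgroupOf D => (⟨a.1, mem_subgroupOf.mp a.2⟩ : Ψ)) (by
          intro a b hab
          have h1 : ((a.1 : D) : G) = ((b.1 : D) : G) := congrArg (fun z : Ψ => (z : G)) hab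
          exact Subtype.ext (Subtype.ext h1))
      exact Set.finite_range _
    rintro _ (⟨f, rfl⟩ | ⟨i, rfl⟩)
    · obtain ⟨Ψ, hn, hf, hx⟩ := hΨ f
      exact ⟨_, hnorm Ψ, hfin Ψ hf, (key Ψ f hx).2 f.2⟩
    · obtain ⟨Ψ, hn, hf, hx⟩ := hΨ i
      exact ⟨_, hnorm Ψ, hfin Ψ hf, (key Ψ i hx).1⟩
  · have := hnorm ⊤
    have h1 : commutator P ≤ (ι.comp ((⊤ : Subgroup G).subgroupOf D).subtype).range := by
      refine commutator_le_of_gen hS _ ?_
      rintro _ (⟨f, rfl⟩ | ⟨i, rfl⟩)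
      · exact (key ⊤ f (by simp)).2 f.2
      · exact (key ⊤ i (by simp)).1
    calc #(commutator P) ≤ #(Set.range ι) := by
          refine mk_le_mk_of_subset (s := (commutator P : Set P)) ?_
          intro x hx
          obtain ⟨a, rfl⟩ := h1 hx
          exact ⟨a, rfl⟩
      _ ≤ #D := mk_range_le

theorem HasModel.refine {D : Subgroup G} [hDn : D.Normal] {d : G → G → G} (h : HasModel D d)
    (hd : ∀ i j, i < j → d i j ∈ D) (Z : Set G)
    (hZ : ∀ i ∈ Z, (∀ f ∈ D, i * f = f * i) ∧ ∀ j, d i j = 1 ∧ d j i = 1)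
    (hΨ : ∀ x, ∃ Ψ : Subgroup G, Ψ.Normal ∧ (Ψ : Set G).Finite ∧
      ∀ g, ⁅x, g⁆ ∈ Ψ ∧ d x g ∈ Ψ ∧ d g x ∈ Ψ) :
    ∃ (P : Type) (_ : Group P) (ι : D →* P) (p : G → P), IsModel D d ι p ∧
      (∀ i ∈ Z, p i = 1) ∧ FC P ∧ #(commutator P) ≤ #D := by
  classical
  obtain ⟨P, _, ι, p, hM⟩ := h
  have hM1 := hM.kill Z hZ
  set p1 : G → P := fun i => if i ∈ Z then 1 else p i with hp1
  let P' : Subgroup P := closure (Set.range ι ∪ Set.range p1)
  let ι' : D →* P' := ι.codRestrict P' fun f => subset_closure (Or.inl ⟨f, rfl⟩)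
  let p' : G → P' := fun i => ⟨p1 i, subset_closure (Or.inr ⟨i, rfl⟩)⟩
  have hM' : IsModel D d ι' p' := by
    refine ⟨fun a b hab => hM1.inj (congrArg Subtype.val hab), ?_, ?_⟩
    · intro i f f' hf
      exact Subtype.ext (hM1.conj i f f' hf)
    · intro i j hij f hf
      exact Subtype.ext (hM1.comm i j hij f hf)
  have hS : closure (Set.range ι' ∪ Set.range p') = ⊤ := by
    rw [← closure_closure_coe_preimage (k := Set.range ι ∪ Set.range p1)]
    congr 1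
    ext x
    constructor
    · rintro (⟨f, rfl⟩ | ⟨i, rfl⟩)
      · exact Or.inl ⟨f, rfl⟩
      · exact Or.inr ⟨i, rfl⟩
    · rintro (⟨f, hf⟩ | ⟨i, hi⟩)
      · exact Or.inl ⟨f, Subtype.ext hf⟩
      · exact Or.inr ⟨i, Subtype.ext hi⟩
  obtain ⟨h1, h2⟩ := hM'.good hd hΨ hS
  refine ⟨P', inferInstance, ι', p', hM', ?_, h1, h2⟩
  intro i hi
  exact Subtype.ext (if_pos hi)

end Pool.Agent.MP_fb3574_al.H54
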